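import Pool.Agent.T2h30.PA.T_A

/-!
# Project PA (helper30), task B: elimination of a layer

Lean by helper2.
-/

set_option autoImplicit false

namespace Pool.Agent.T2h30.PA.B

open Pool.Agent.Y110.FJ Pool.Agent.Y462.SS Pool.Agent.T2h30.PA Pool.Agent.T2h30.PA.A

variable {X : Type} {d : X} {P B : ℕ → Subgroup (T X)} {ι : Type} {c E : ι → ℕ} {m F : ℕ}

/-- the maps of the edge groups to the cover -/
noncomputable def ph (P B : ℕ → Subgroup (T X)) (m : ℕ) (c : ι → ℕ) :
    ∀ j : Option ι × Bool, Kf P B (addl c m) j →* Gam P B m
  | (none, false) => gC P B m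
  | (none, true) => gL P B m
  | (some i, b) => (gC P B m).comp (incl (Kf P B c (i, b)) (P m))

/-- the maps of the leaves to the star -/
noncomputable def gg (P B : ℕ → Subgroup (T X)) (m F : ℕ) (c E : ι → ℕ) :
    ∀ j : Option ι × Bool, Lf P B (addl E F) j →* SPx P B F m c E
  | (none, false) => starC (fx P B F m c) (kx P B F m c E)
  | (none, true) => starL (fx P B F m c) (kx P B F m c E) none
  | (some i, b) => LS P B F m c E (i, b)

theorem gg_inj (h : Tower d P B) (hcE : ∀ i, c i ≤ E i) (hc : ∀ i, c i < m) (hm : m ≤ F) :
    ∀ j : Option ι × Bool, Function.Injective (gg P B m F c E j)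
  | (none, false) => SPx_C_inj h hcE hc hm
  | (none, true) => SPx_L_inj h hcE hc hm none
  | (some i, b) => LS_inj h hcE hc hm (i, b)

theorem ph_gg (h : Tower d P B) (hc : ∀ i, c i < m) (hm : m ≤ F) :
    ∀ (j : Option ι × Bool) (k : Kf P B (addl c m) j),
      HH h c E hm (ph P B m c j k) = gg P B m F c E j (kap P B (addl c m) (addl E F) j k)
  | (none, false), k => HH_C h c E hm k
  | (none, true), k => HH_L h c E hm k
  | (some i, b), k => (HH_C h c E hm _).trans (HC_some h c E hc hm (i, b) k)

theorem t_B : S_B := by
  intro hREC hTT hJJ hLIM C hC X hX d P B h ι c E m F hcE hc hm hSPx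
  obtain ⟨ψ, π, hG⟩ := hREC X d P B h m
  have hK := Kf_le_P h hc
  have hfin := finish hTT hJJ hC h hcE hc hm hSPx (ph P B m c) (gg P B m F c E)
    (gg_inj h hcE hc hm) (ph_gg h hc hm)
  refine hLIM hTT C hC X hX d P B h (Option ι) (addl c m) (addl E F) (m + 1) ?_ ?_
    (Gam P B m) ψ π hG.cov (ph P B m c) ?_ hfin.1 hfin.2
  · intro i
    cases i with
    | none => exact hm
    | some i => exact hcE i
  · intro i
    cases i with
    | none => exact Nat.lt_succ_self m
    | some i => exact (hc i).trans (Nat.lt_succ_self m)
  · constructor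
    · rintro ⟨_ | i, b⟩ k
      · cases b
        · exact hG.piC k
        · exact hG.piL k
      · exact (hG.piC _).trans (incl_apply (hK (i, b)) k)
    · rintro (_ | i) k k' x hk
      · exact hG.secC k k' x hk
      · refine hG.secC (incl (Kf P B c (i, false)) (P m) k)
          (incl (Kf P B c (i, false)) (P m) k') x ?_
        exact (incl_apply (hK (i, false)) k').trans
          (hk.trans (congrArg (fun g => sec g x) (incl_apply (hK (i, false)) k).symm))
    · rintro (_ | i) k k' hk
      · exact hG.secL k k' hk
      · refine hG.secC (incl (Kf P B c (i, true)) (P m) k)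
          (incl (Kf P B c (i, true)) (P m) k') d ?_
        exact (incl_apply (hK (i, true)) k').trans
          (hk.trans (congrArg (fun g => sec g d) (incl_apply (hK (i, true)) k).symm))
    · rintro (_ | i) k k' x hx hk
      · exact hG.secO k k' x hx hk
      · refine hG.secC (incl (Kf P B c (i, true)) (P m) k)
          (incl (Kf P B c (i, false)) (P m) k') x ?_
        exact (incl_apply (hK (i, false)) k').trans
          (hk.trans (congrArg (fun g => sec g x) (incl_apply (hK (i, true)) k).symm))

end Pool.Agent.T2h30.PA.B
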