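import Pool.Agent.T2h30.PA.Stm2
import Pool.Agent.Y430.SS.Lf
import Pool.Agent.Y812.SS.Wr

/-!
# The groups `Bs d Q` are in the class (project PA, part BC)
-/

set_option autoImplicit false

namespace Pool.Agent.T2h30.PA.BC

open Pool.Agent.Y110.FJ Pool.Agent.Y462.SS Pool.Agent.T2h30.PA

variable {X : Type}

/-- the elements with period `m` -/
def Kp (d : X) (Q : Subgroup (T X)) (m : ℕ) : Subgroup (Bs d Q) where
  carrier := {b | sd d m b.1 = b.1}
  one_mem' := sd_one d m
  mul_mem' := by
    intro a b ha hb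
    show sd d m (a.1 * b.1) = a.1 * b.1
    rw [sd_mul d m a.1 b.1 b.2.1, show sd d m a.1 = a.1 from ha, show sd d m b.1 = b.1 from hb]
  inv_mem' := by
    intro a ha
    show sd d m (a.1)⁻¹ = (a.1)⁻¹
    rw [sd_inv d m a.1 a.2.1, show sd d m a.1 = a.1 from ha]

theorem mem_Kp {d : X} {Q : Subgroup (T X)} {m : ℕ} {b : Bs d Q} :
    b ∈ Kp d Q m ↔ sd d m b.1 = b.1 := Iff.rfl

theorem Kp_dvd (d : X) (Q : Subgroup (T X)) {m n : ℕ} (h : m ∣ n) : Kp d Q m ≤ Kp d Q n := by
  intro b hb
  obtain ⟨t, rfl⟩ := h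
  exact sd_period d m b.1 hb t

open Classical in
/-- the data of one element at one place -/
noncomputable def dat (d : X) (Q : Subgroup (T X)) (b : Bs d Q) (i : ℕ) : Wr X Q :=
  ⟨fun x => if h : x = d then 1 else ⟨sec (sd d i b.1) x, b.2.2.1 i x h⟩, root (sd d i b.1)⟩

theorem dat_s (d : X) (Q : Subgroup (T X)) (b : Bs d Q) (i : ℕ) (x : X) (h : x ≠ d) :
    (((dat d Q b i).s x : Q) : T X) = sec (sd d i b.1) x := by
  unfold dat
  simp only
  rw [dif_neg h]

theorem dat_d (d : X) (Q : Subgroup (T X)) (b : Bs d Q) (i : ℕ) :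
    (dat d Q b i).s d = 1 := by
  unfold dat
  simp

theorem dat_mul (d : X) (Q : Subgroup (T X)) (a b : Bs d Q) (i : ℕ) :
    dat d Q (a * b) i = dat d Q a i * dat d Q b i := by
  have hm : sd d i (a * b).1 = sd d i a.1 * sd d i b.1 := sd_mul d i a.1 b.1 b.2.1
  apply Wr.ext
  · funext x
    rw [Wr.mul_s]
    by_cases h : x = d
    · subst h
      have h1 : (dat x Q b i).p x = x := b.2.1 i
      rw [h1, dat_d, dat_d, dat_d, one_mul]
    · have h1 : (dat d Q b i).p x ≠ d := by
        intro h2
        apply h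
        have h3 : (dat d Q b i).p d = d := b.2.1 i
        exact (dat d Q b i).p.injective (h2.trans h3.symm)
      apply Subtype.ext
      show (((dat d Q (a * b) i).s x : Q) : T X) =
        ((dat d Q a i).s ((dat d Q b i).p x) : T X) * ((dat d Q b i).s x : T X)
      rw [dat_s d Q (a * b) i x h, dat_s d Q a i _ h1, dat_s d Q b i x h, hm, sec_mul]
      rfl
  · rw [Wr.mul_p]
    show root (sd d i (a * b).1) = root (sd d i a.1) * root (sd d i b.1)
    rw [hm, root_mul]

theorem dat_one (d : X) (Q : Subgroup (T X)) (i : ℕ) : dat d Q 1 i = 1 := by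
  have h := dat_mul d Q 1 1 i
  rw [one_mul] at h
  exact (left_eq_mul.1 h)

theorem eq_of_dat (d : X) (Q : Subgroup (T X)) (a b : Bs d Q)
    (h : ∀ i, dat d Q a i = dat d Q b i) : a = b := by
  have key : ∀ (w : List X) (i : ℕ), (sd d i a.1).1 w = (sd d i b.1).1 w := by
    intro w
    induction w with
    | nil => intro i; rw [nil_eq, nil_eq]
    | cons x w ih =>
      intro i
      have hr : root (sd d i a.1) = root (sd d i b.1) := congrArg Wr.p (h i)
      rw [cons_eq, cons_eq, hr]
      congr 1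
      by_cases hx : x = d
      · subst hx
        rw [← sd_succ', ← sd_succ']
        exact ih (i + 1)
      · rw [← dat_s d Q a i x hx, ← dat_s d Q b i x hx, h i]
  apply Subtype.ext
  apply Subtype.ext
  apply Equiv.ext
  intro w
  exact key w 0

theorem dat_period (d : X) (Q : Subgroup (T X)) {m : ℕ} (b : Bs d Q)
    (hb : b ∈ Kp d Q m) (i : ℕ) : dat d Q b i = dat d Q b (i % m) := by
  have h1 : sd d i b.1 = sd d (i % m) b.1 := by
    conv_lhs => rw [← Nat.div_add_mod i m]
    rw [sd_add, sd_period d m b.1 hb]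
  apply Wr.ext
  · funext x
    by_cases h : x = d
    · subst h
      rw [dat_d, dat_d]
    · apply Subtype.ext
      rw [dat_s d Q b i x h, dat_s d Q b _ x h, h1]
  · show root (sd d i b.1) = root (sd d (i % m) b.1)
    rw [h1]

theorem t_BC : S_BC := by
  intro C hC X _ d Q hQ
  refine Pool.Agent.Y430.SS.t_union C hC.base (Bs d Q) (fun n => Kp d Q n.factorial) ?_ ?_ ?_
  · intro m n hmn
    exact Kp_dvd d Q (Nat.factorial_dvd_factorial hmn)
  · intro g
    obtain ⟨m, hm, hg⟩ := g.2.2.2
    exact ⟨m, Kp_dvd d Q (Nat.dvd_factorial hm le_rfl) hg⟩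
  · intro n
    have hn : 0 < n.factorial := Nat.factorial_pos n
    refine hC.base.of_injective (Kp d Q n.factorial) (Fin n.factorial → Wr X Q)
      { toFun := fun b i => dat d Q b.1 i
        map_one' := by
          funext i
          exact dat_one d Q i
        map_mul' := by
          intro a b
          funext i
          exact dat_mul d Q a.1 b.1 i } ?_
      (Pool.Agent.Y812.SS.C_pow hC.base _ _ (Pool.Agent.Y812.SS.t_wr C hC.base X Q inferInstance hQ))
    intro a b hab
    apply Subtype.ext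
    apply eq_of_dat d Q
    intro i
    rw [dat_period d Q a.1 a.2 i, dat_period d Q b.1 b.2 i]
    exact congrFun hab ⟨i % n.factorial, Nat.mod_lt _ hn⟩

end Pool.Agent.T2h30.PA.BC
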