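import Pool.Agent.T2h30.PA.Stm2

/-!
# Task EXPO of project PA: no state returns along two incomparable words
-/

set_option autoImplicit false

namespace Pool.Agent.T2h30.PA.EXPO

open Pool.Agent.Y110.FJ Pool.Agent.Y462.SS

variable {X : Type}

theorem secw_append (v w : List X) : ∀ g : T X, secw (v ++ w) g = secw w (secw v g) := by
  induction v with
  | nil => intro g; rfl
  | cons x v ih => intro g; exact ih (sec g x)

/-- exponentials are larger than polynomials -/
theorem growth (a k c l : ℕ) : ∃ t : ℕ, a * (c + l * t + 1) ^ k < 2 ^ t := by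
  have h1 := tendsto_pow_const_div_const_pow_of_one_lt k (show (1 : ℝ) < 2 by norm_num)
  have hM : (0 : ℝ) < 2 * (a * (c + l + 1) ^ k + 1) := by positivity
  have h2 := (h1.eventually (gt_mem_nhds (show (0 : ℝ) < 1 / (2 * (a * (c + l + 1) ^ k + 1)) by
    positivity))).exists_forall_of_atTop
  obtain ⟨N, hN⟩ := h2
  refine ⟨N, ?_⟩
  have h3 := hN (N + 1) (by omega)
  rw [div_lt_div_iff₀ (by positivity) hM, one_mul, pow_succ] at h3
  have h4 : ((a * (c + l * N + 1) ^ k : ℕ) : ℝ) < 2 ^ N := by
    have h5 : ((c + l * N + 1 : ℕ) : ℝ) ≤ (c + l + 1) * ((N + 1 : ℕ) : ℝ) := by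
      push_cast
      have h6 : (0 : ℝ) ≤ c := Nat.cast_nonneg c
      have h7 : (0 : ℝ) ≤ l := Nat.cast_nonneg l
      have h8 : (0 : ℝ) ≤ N := Nat.cast_nonneg N
      nlinarith [mul_nonneg h6 h8]
    have h6 : (((c + l * N + 1 : ℕ) : ℝ)) ^ k ≤ (c + l + 1) ^ k * ((N + 1 : ℕ) : ℝ) ^ k := by
      rw [← mul_pow]
      exact pow_le_pow_left₀ (Nat.cast_nonneg _) h5 k
    have h7 : (0 : ℝ) ≤ a := Nat.cast_nonneg a
    have h8 : (0 : ℝ) < ((N + 1 : ℕ) : ℝ) ^ k := by positivity
    have h9 : ((a * (c + l * N + 1) ^ k : ℕ) : ℝ) = a * (((c + l * N + 1 : ℕ) : ℝ)) ^ k := by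
      push_cast
      ring
    rw [h9]
    have h10 : (a : ℝ) * (((c + l * N + 1 : ℕ) : ℝ)) ^ k ≤
        a * ((c + l + 1) ^ k * ((N + 1 : ℕ) : ℝ) ^ k) := mul_le_mul_of_nonneg_left h6 h7
    nlinarith
  exact_mod_cast h4

open Classical in
/-- the products of `t` words from `{A, A'}` -/
noncomputable def Wd (A A' : List X) : ℕ → Finset (List X)
  | 0 => {[]}
  | t + 1 => (Wd A A' t).image (fun w => A ++ w) ∪ (Wd A A' t).image (fun w => A' ++ w)

theorem Wd_card (A A' : List X) (hl : A.length = A'.length) (hne : A ≠ A') (t : ℕ) :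
    (Wd A A' t).card = 2 ^ t := by
  classical
  induction t with
  | zero => simp [Wd]
  | succ t ih =>
    rw [Wd, Finset.card_union_of_disjoint, Finset.card_image_of_injective,
      Finset.card_image_of_injective, ih, pow_succ]
    · ring
    · intro a b h
      exact List.append_cancel_left h
    · intro a b h
      exact List.append_cancel_left h
    · rw [Finset.disjoint_left]
      intro w h1 h2
      obtain ⟨a, -, rfl⟩ := Finset.mem_image.1 h1
      obtain ⟨b, -, hb⟩ := Finset.mem_image.1 h2
      exact hne (List.append_inj hb hl.symm).1.symm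

theorem Wd_length (A A' : List X) (hl : A.length = A'.length) (t : ℕ) :
    ∀ w ∈ Wd A A' t, w.length = A.length * t := by
  classical
  induction t with
  | zero =>
    intro w hw
    rw [Wd, Finset.mem_singleton] at hw
    simp [hw]
  | succ t ih =>
    intro w hw
    rw [Wd, Finset.mem_union] at hw
    rcases hw with hw | hw
    · obtain ⟨a, ha, rfl⟩ := Finset.mem_image.1 hw
      rw [List.length_append, ih a ha]
      ring
    · obtain ⟨a, ha, rfl⟩ := Finset.mem_image.1 hw
      rw [List.length_append, ih a ha, ← hl]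
      ring

theorem Wd_secw (A A' : List X) (q : T X) (h : secw A q = q) (h' : secw A' q = q) (t : ℕ) :
    ∀ w ∈ Wd A A' t, secw w q = q := by
  classical
  induction t with
  | zero =>
    intro w hw
    rw [Wd, Finset.mem_singleton] at hw
    rw [hw]
    rfl
  | succ t ih =>
    intro w hw
    rw [Wd, Finset.mem_union] at hw
    rcases hw with hw | hw
    · obtain ⟨a, ha, rfl⟩ := Finset.mem_image.1 hw
      rw [secw_append, h, ih a ha]
    · obtain ⟨a, ha, rfl⟩ := Finset.mem_image.1 hw
      rw [secw_append, h', ih a ha]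

theorem t_EXPO : S_EXPO := by
  intro X _ g hg u hu v v' hv hv'
  classical
  by_contra hcon
  push Not at hcon
  obtain ⟨hc1, hc2⟩ := hcon
  obtain ⟨a, k, hak⟩ := hg
  have hl : (v ++ v').length = (v' ++ v).length := by
    rw [List.length_append, List.length_append, Nat.add_comm]
  have hne : v ++ v' ≠ v' ++ v := by
    intro h
    rcases List.prefix_or_prefix_of_prefix (List.prefix_append v v')
      (h ▸ List.prefix_append v' v) with h1 | h1
    · exact hc1 h1
    · exact hc2 h1
  have h1 : secw (v ++ v') (secw u g) = secw u g := by rw [secw_append, hv, hv']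
  have h2 : secw (v' ++ v) (secw u g) = secw u g := by rw [secw_append, hv', hv]
  obtain ⟨t, ht⟩ := growth a k u.length (v ++ v').length
  have h3 := hak (u.length + (v ++ v').length * t)
  have h4 : 2 ^ t ≤ {w : List X | w.length = u.length + (v ++ v').length * t ∧
      secw w g ≠ 1}.ncard := by
    rw [← Wd_card (v ++ v') (v' ++ v) hl hne t,
      ← Finset.card_image_of_injective (Wd (v ++ v') (v' ++ v) t)
        (show Function.Injective (fun w => u ++ w) from fun a b h => List.append_cancel_left h),
      ← Set.ncard_coe_finset]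
    refine Set.ncard_le_ncard ?_ ?_
    · intro w hw
      obtain ⟨w', hw', rfl⟩ := Finset.mem_image.1 (Finset.mem_coe.1 hw)
      refine ⟨?_, ?_⟩
      · rw [List.length_append, Wd_length _ _ hl t w' hw']
      · rw [secw_append, Wd_secw _ _ _ h1 h2 t w' hw']
        exact hu
    · exact (List.finite_length_eq X (u.length + (v ++ v').length * t)).subset fun w hw => hw.1
  omega

end Pool.Agent.T2h30.PA.EXPO
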