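import Pool.Agent.T2h30.PA.Stm2
import Pool.Agent.Y430.SS.Lf

/-!
# Project PA, task FIN (helper28)
-/

set_option autoImplicit false

namespace Pool.Agent.T2h30.PA.FIN

open Pool.Agent.Y110.FJ Pool.Agent.Y462.SS Pool.Agent.T2h30.PA

theorem t_FIN : S_FIN := by
  intro hMAIN hTOW hPZ hBC hPOLY hTRA C hC X hX G _ f hf S hS hT hFin hPA
  rcases isEmpty_or_nonempty X with hE | ⟨⟨d⟩⟩
  · have hsub : Subsingleton G := by
      constructor
      intro a b
      apply hf
      apply Equiv.ext
      intro w
      exact Subsingleton.elim _ _
    exact hC.base.of_injective G (Multiplicative ℤ) 1 (Function.injective_of_subsingleton _)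
      hC.base.int
  · have hTow := hTOW X d
    have hCP : ∀ k, C (Pk d k) := by
      refine hMAIN C hC X hX d (Pk d) (Bk d) hTow ?_ ?_
      · exact hPZ C hC X hX d
      · intro k hk
        exact hBC C hC X hX d (Pk d k) hk
    have hTr : ∀ g : G, f g ∈ T X := by
      have h1 : Subgroup.closure S ≤ (T X).comap f := by
        rw [Subgroup.closure_le]
        intro s hs
        exact hT s hs
      rw [hS] at h1
      intro g
      exact h1 (Subgroup.mem_top g)
    let f' : G →* T X := f.codRestrict (T X) hTr
    have hf' : Function.Injective f' := by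
      intro a b hab
      apply hf
      exact congrArg Subtype.val hab
    have hmono : Monotone (Pk d) := monotone_nat_of_le_succ hTow.P_le
    refine Pool.Agent.Y430.SS.t_union C hC.base G (fun k => (Pk d k).comap f') ?_ ?_ ?_
    · intro m n hmn
      exact Subgroup.comap_mono (hmono hmn)
    · intro g
      have hg : g ∈ Subgroup.closure S := by rw [hS]; exact Subgroup.mem_top g
      induction hg using Subgroup.closure_induction with
      | mem s hs =>
        exact hPOLY X hX d (f' s) ((hTRA X (f' s)).1 (hFin s hs)) ((hTRA X (f' s)).2 (hPA s hs))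
      | one => exact ⟨0, one_mem _⟩
      | mul a b _ _ ha hb =>
        obtain ⟨m, hm⟩ := ha
        obtain ⟨n, hn⟩ := hb
        refine ⟨max m n, mul_mem ?_ ?_⟩
        · exact hmono (le_max_left m n) hm
        · exact hmono (le_max_right m n) hn
      | inv a _ ha =>
        obtain ⟨m, hm⟩ := ha
        exact ⟨m, inv_mem hm⟩
    · intro k
      refine hC.base.of_injective _ (Pk d k)
        ((f'.comp ((Pk d k).comap f').subtype).codRestrict (Pk d k) (fun x => x.2)) ?_ (hCP k)
      intro a b hab
      apply Subtype.ext
      apply hf'
      exact congrArg Subtype.val hab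

end Pool.Agent.T2h30.PA.FIN
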