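import Pool.Agent.T2h30.PA.Stm

/-! Task FOLD of project PA (helper25). -/

set_option autoImplicit false

namespace Pool.Agent.T2h30.PA.FOLD

open Pool.Agent.Y110.FJ Pool.Agent.Y462.SS Pool.Agent.T2h30.PA

variable {X : Type}

theorem P_mono {d : X} {P B : ℕ → Subgroup (T X)} (h : Tower d P B) {m n : ℕ} (hmn : m ≤ n) :
    P m ≤ P n := monotone_nat_of_le_succ h.P_le hmn

theorem B_mono {d : X} {P B : ℕ → Subgroup (T X)} (h : Tower d P B) {m n : ℕ} (hmn : m ≤ n) :
    B m ≤ B n := monotone_nat_of_le_succ h.B_le hmn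

theorem Kf_le_P {d : X} {P B : ℕ → Subgroup (T X)} (h : Tower d P B) {ι : Type} (c : ι → ℕ)
    (e : ℕ) (hc : ∀ i, c i < e) (j : ι × Bool) : Kf P B c j ≤ P e := by
  obtain ⟨i, b⟩ := j
  cases b
  · exact P_mono h (hc i).le
  · exact (B_mono h (hc i)).trans (h.B_le_P e)

theorem Kf_le_Lf {d : X} {P B : ℕ → Subgroup (T X)} (h : Tower d P B) {ι : Type} (c E : ι → ℕ)
    (hc : ∀ i, c i ≤ E i) (j : ι × Bool) : Kf P B c j ≤ Lf P B E j := by
  obtain ⟨i, b⟩ := j
  cases b
  · exact P_mono h (hc i)
  · exact B_mono h (Nat.succ_le_succ (hc i))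

/-- a star of subgroups has a homomorphism to the ambient group -/
theorem star_sub {G : Type} [Group G] {ι : Type} (P : Subgroup G) (L K : ι → Subgroup G)
    (h1 : ∀ i, K i ≤ P) (h2 : ∀ i, K i ≤ L i) :
    Function.Injective (starC (fun i => incl (K i) P) (fun i => incl (K i) (L i))) ∧
    ∀ i, Function.Injective (starL (fun i => incl (K i) P) (fun i => incl (K i) (L i)) i) := by
  have hh : ∀ i (k : K i), P.subtype (incl (K i) P k) = (L i).subtype (incl (K i) (L i) k) := by
    intro i k
    rw [Subgroup.subtype_apply, Subgroup.subtype_apply, incl_apply (h1 i), incl_apply (h2 i)]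
  refine ⟨fun a b hab => ?_, fun i a b hab => ?_⟩
  · have := congrArg (starLift (fun i => incl (K i) P) (fun i => incl (K i) (L i)) P.subtype
      (fun i => (L i).subtype) hh) hab
    rw [starLift_C, starLift_C] at this
    exact Subtype.ext this
  · have := congrArg (starLift (fun i => incl (K i) P) (fun i => incl (K i) (L i)) P.subtype
      (fun i => (L i).subtype) hh) hab
    rw [starLift_L, starLift_L] at this
    exact Subtype.ext this

theorem t_FOLD : S_FOLD := by
  intro hTT C hC X d P B hT ι c E e i₀ hcE hce he hSP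
  have hK1 : ∀ j, Kf P B c j ≤ P e := Kf_le_P hT c e hce
  have hK2 : ∀ j, Kf P B c j ≤ Lf P B E j := Kf_le_Lf hT c E hcE
  obtain ⟨hinjC, hinjL⟩ := star_sub (P e) (Lf P B E) (Kf P B c) hK1 hK2
  have hBB : B (e + 1) ≤ Lf P B E (i₀, true) := B_mono hT (Nat.succ_le_succ he)
  have hcB : B (c i₀ + 1) ≤ B (e + 1) := B_mono hT (Nat.succ_le_succ (hce i₀).le)
  have hcP : B (c i₀ + 1) ≤ P e := hK1 (i₀, true)
  let sC := starC (fun j : ι × Bool => incl (Kf P B c j) (P e)) (kap P B c E)
  let sL := starL (fun j : ι × Bool => incl (Kf P B c j) (P e)) (kap P B c E)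
  let g : ∀ j : Option (ι × Bool), Lx P B e E j →* SP P B e c E := fun j =>
    match j with
    | none => (sL (i₀, true)).comp (incl (B (e + 1)) (Lf P B E (i₀, true)))
    | some j => sL j
  refine hTT C hC (P e) (Option (ι × Bool)) (fun j => Lx P B e E j)
    (fun j => Kx P B (c i₀ + 1) c j)
    (fun j => incl (Kx P B (c i₀ + 1) c j) (P e))
    (fun j => incl (Kx P B (c i₀ + 1) c j) (Lx P B e E j)) (SP P B e c E) sC g ?_ hinjC ?_ hSP
  · intro j k
    cases j with
    | none =>
      have h1 := star_glue (fun j : ι × Bool => incl (Kf P B c j) (P e)) (kap P B c E)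
        (i₀, true) k
      refine h1.trans ?_
      show sL (i₀, true) _ = sL (i₀, true) _
      congr 1
      apply Subtype.ext
      exact (incl_apply (hK2 (i₀, true)) k).trans
        (((incl_apply hBB (incl (B (c i₀ + 1)) (B (e + 1)) k)).trans
          (incl_apply hcB k)).symm)
    | some j =>
      exact star_glue (fun j : ι × Bool => incl (Kf P B c j) (P e)) (kap P B c E) j k
  · intro j
    cases j with
    | none =>
      refine (hinjL (i₀, true)).comp ?_
      rw [incl_eq hBB]
      exact Subgroup.inclusion_injective hBB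
    | some j => exact hinjL j

end Pool.Agent.T2h30.PA.FOLD
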