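import Pool.Agent.T2h30.PA.Stm

/-! Task INIT of project PA (helper25). -/

set_option autoImplicit false

namespace Pool.Agent.T2h30.PA.INIT

open Pool.Agent.Y110.FJ Pool.Agent.Y462.SS Pool.Agent.T2h30.PA

theorem t_INIT : S_INIT := by
  intro hTT C hC X d P B hT ι _ c E e
  refine ⟨fun hP hB => ?_, fun hP => ?_, fun hSP => ?_⟩
  · let g : ∀ j : Option (ι × Bool), Lx P B e E j →* (P e × B (e + 1)) := fun j =>
      match j with
      | none => MonoidHom.inr (P e) (B (e + 1))
      | some j => (IsEmpty.false j.1).elim
    refine hTT C hC (P e) (Option (ι × Bool)) (fun j => Lx P B e E j)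
      (fun j => Kx P B 0 c j)
      (fun j => incl (Kx P B 0 c j) (P e))
      (fun j => incl (Kx P B 0 c j) (Lx P B e E j)) (P e × B (e + 1))
      (MonoidHom.inl (P e) (B (e + 1))) g ?_ ?_ ?_ (hC.base.prod _ _ hP hB)
    · intro j k
      cases j with
      | none =>
        have hk : k = 1 := by
          apply Subtype.ext
          have h1 : (k : T X) ∈ B 0 := k.2
          rw [hT.B_zero, Subgroup.mem_bot] at h1
          exact h1
        rw [hk, map_one, map_one, map_one, map_one]
      | some j => exact (IsEmpty.false j.1).elim
    · intro a b hab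
      exact congrArg Prod.fst hab
    · intro j
      cases j with
      | none =>
        intro a b hab
        exact congrArg Prod.snd hab
      | some j => exact (IsEmpty.false j.1).elim
  · exact hTT C hC (P e) (ι × Bool) (fun j => Lf P B E j) (fun j => Kf P B c j)
      (fun j => incl (Kf P B c j) (P e)) (kap P B c E) (P e) (MonoidHom.id _)
      (fun j => (IsEmpty.false j.1).elim) (fun j => (IsEmpty.false j.1).elim)
      (fun a b hab => hab) (fun j => (IsEmpty.false j.1).elim) hP
  · refine hC.base.of_injective _ _
      (starC (fun j : ι × Bool => incl (Kf P B c j) (P e)) (kap P B c E)) ?_ hSP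
    intro a b hab
    have h1 := congrArg (starLift (fun j : ι × Bool => incl (Kf P B c j) (P e)) (kap P B c E)
      (MonoidHom.id (P e)) (fun j => (IsEmpty.false j.1).elim)
      (fun j => (IsEmpty.false j.1).elim)) hab
    rw [starLift_C, starLift_C] at h1
    exact h1

end Pool.Agent.T2h30.PA.INIT
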