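import Pool.Agent.T2h30.PA.Stm

/-! Task JJ of project PA (helper25). -/

set_option autoImplicit false

namespace Pool.Agent.T2h30.PA.JJ

open Pool.Agent.Y110.FJ Pool.Agent.Y462.SS Pool.Agent.T2h30.PA

theorem t_JJ (h : S_EMB) : S_JJ := by
  intro A ι _ L K _ _ φ κ A' ι' _ L' K' _ _ φ' κ' Q _ f' g' hfg hf hg j α β Ψ hj hα hβ
    hedge hA hL hΨC hΨL
  have hD1 : ∀ i' k, f' (φ' i' k) ∈ ((g' i').comp (κ' i')).range := fun i k => ⟨k, (hfg i k).symm⟩
  have hD2 : ∀ i' a, f' a ∈ ((g' i').comp (κ' i')).range → ∃ k, φ' i' k = a := by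
    rintro i a ⟨k, hk⟩
    refine ⟨k, hf ?_⟩
    rw [hfg]
    exact hk
  have hD3 : ∀ i' l, g' i' l ∈ ((g' i').comp (κ' i')).range → ∃ k, κ' i' k = l := by
    rintro i l ⟨k, hk⟩
    exact ⟨k, hg i hk⟩
  obtain ⟨Θ', hΘ', hC', hL'⟩ := h A' ι' L' K' φ' κ' Q ι' (fun i => ((g' i).comp (κ' i)).range) id
    f' g' hfg Function.injective_id hf hg hD1 hD2 hD3
  have hcomp : ∀ i k, (f'.comp α) (φ i k) = ((g' (j i)).comp (β i)) (κ i k) := by
    intro i k
    obtain ⟨k', h1, h2⟩ := hedge i k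
    show f' (α (φ i k)) = g' (j i) (β i (κ i k))
    rw [← h1, ← h2, hfg]
  obtain ⟨Θ, hΘ, hC, hL''⟩ := h A ι L K φ κ Q ι' (fun i => ((g' i).comp (κ' i)).range) j
    (f'.comp α) (fun i => (g' (j i)).comp (β i)) hcomp hj (hf.comp hα)
    (fun i => (hg (j i)).comp (hβ i))
    (fun i k => by
      obtain ⟨k', h1, h2⟩ := hedge i k
      refine ⟨k', ?_⟩
      show g' (j i) (κ' (j i) k') = f' (α (φ i k))
      rw [← h1, hfg])
    (fun i a ha => hA i a (by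
      obtain ⟨k', hk'⟩ := hD2 (j i) (α a) ha
      exact ⟨k', hk'⟩))
    (fun i l hl => hL i l (by
      obtain ⟨k', hk'⟩ := hD3 (j i) (β i l) hl
      exact ⟨k', hk'⟩))
  have he : Θ'.comp Ψ = Θ := by
    apply star_ext φ κ
    · intro a
      rw [MonoidHom.comp_apply, hΨC, hC', hC]
      rfl
    · intro i l
      rw [MonoidHom.comp_apply, hΨL, hL', hL'']
      rfl
  intro x y hxy
  apply hΘ
  rw [← he, MonoidHom.comp_apply, MonoidHom.comp_apply, hxy]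

end Pool.Agent.T2h30.PA.JJ
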