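import Pool.Agent.T2h30.PA.Stm2

/-!
# Project PA, task LV: `Pk d k` contains the automorphisms with all sections in `Pk d k`
-/

set_option autoImplicit false

namespace Pool.Agent.T2h30.PA.LV

open Pool.Agent.Y110.FJ Pool.Agent.Y462.SS Pool.Agent.T2h30.PA

variable {X : Type}

/-- the action of the automorphism with given sections and root -/
def mkF (s : X → T X) (p : Equiv.Perm X) : List X → List X
  | [] => []
  | x :: w => p x :: (s x).1 w

/-- the inverse -/
def mkI (s : X → T X) (p : Equiv.Perm X) : List X → List X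
  | [] => []
  | x :: w => p.symm x :: (s (p.symm x)).1.symm w

/-- the automorphism with given sections and root -/
def mkP (s : X → T X) (p : Equiv.Perm X) : Equiv.Perm (List X) where
  toFun := mkF s p
  invFun := mkI s p
  left_inv := by
    intro w
    cases w with
    | nil => rfl
    | cons x w =>
      show mkI s p (p x :: (s x).1 w) = x :: w
      rw [mkI, Equiv.symm_apply_apply, Equiv.symm_apply_apply]
  right_inv := by
    intro w
    cases w with
    | nil => rfl
    | cons x w =>
      show mkF s p (p.symm x :: (s (p.symm x)).1.symm w) = x :: w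
      rw [mkF, Equiv.apply_symm_apply, Equiv.apply_symm_apply]

theorem mkP_tree (s : X → T X) (p : Equiv.Perm X) : IsTree (mkP s p) := by
  refine ⟨fun v => ?_, fun v w => ?_⟩
  · cases v with
    | nil => rfl
    | cons x v =>
      show (p x :: (s x).1 v).length = _
      rw [List.length_cons, (s x).2.1, List.length_cons]
  · cases v with
    | nil => exact List.nil_prefix
    | cons x v =>
      show (p x :: (s x).1 v) <+: (p x :: (s x).1 (v ++ w))
      rw [List.cons_prefix_cons]
      exact ⟨rfl, (s x).2.2 v w⟩

/-- the automorphism with given sections and root -/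
def mk (s : X → T X) (p : Equiv.Perm X) : T X := ⟨mkP s p, mkP_tree s p⟩

theorem root_mk (s : X → T X) (p : Equiv.Perm X) : root (mk s p) = p := by
  apply Equiv.ext
  intro x
  have h := cons_eq (mk s p) x []
  have h2 : (mk s p).1 (x :: []) = p x :: (s x).1 [] := rfl
  rw [h2] at h
  exact (List.cons.inj h).1.symm

theorem sec_mk (s : X → T X) (p : Equiv.Perm X) (x : X) : sec (mk s p) x = s x := by
  apply Subtype.ext
  apply Equiv.ext
  intro w
  have h := cons_eq (mk s p) x w
  have h2 : (mk s p).1 (x :: w) = p x :: (s x).1 w := rfl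
  rw [h2] at h
  exact (List.cons.inj h).2.symm

open Classical in
/-- the automorphism with section `h` at `x` -/
noncomputable def dl (x : X) : T X →* T X where
  toFun h := mk (fun y => if y = x then h else 1) 1
  map_one' := by
    apply T_ext
    · rw [root_mk, root_one]
    · intro y
      rw [sec_mk, sec_one]
      split_ifs <;> rfl
  map_mul' := by
    intro a b
    apply T_ext
    · rw [root_mul, root_mk, root_mk, root_mk, mul_one]
    · intro y
      rw [sec_mul, sec_mk, sec_mk, sec_mk, root_mk]
      show _ = (if y = x then a else 1) * _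
      split_ifs
      · rfl
      · rw [mul_one]

theorem root_dl (x : X) (h : T X) : root (dl x h) = 1 := root_mk _ _

open Classical in
theorem sec_dl (x : X) (h : T X) (y : X) : sec (dl x h) y = if y = x then h else 1 := sec_mk _ _ _

theorem Pk_le (d : X) (k : ℕ) : Pk d k ≤ Pk d (k + 1) := le_sup_left

theorem dep_mem (d : X) (k n : ℕ) (g : T X) (h : IsDep n g) : g ∈ Pk d k := by
  induction k with
  | zero => exact Subgroup.subset_closure (Or.inl ⟨n, h⟩)
  | succ k ih => exact Pk_le d k ih

open Classical in
theorem dl_conj (d x : X) (h : T X) :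
    dl x h = mk (fun _ => 1) (Equiv.swap x d) * dl d h * (mk (fun _ => 1) (Equiv.swap x d))⁻¹ := by
  apply T_ext
  · rw [root_mul, root_mul, root_inv, root_mk, root_dl, root_dl, mul_one, mul_inv_cancel]
  · intro y
    rw [sec_mul, sec_mul, sec_inv, sec_mk, sec_mk, root_inv, root_mk, sec_dl, sec_dl,
      inv_one, mul_one, one_mul, Equiv.swap_inv]
    have h1 : y = x ↔ Equiv.swap x d y = d := by
      constructor
      · rintro rfl
        rw [Equiv.swap_apply_left]
      · intro h2
        have h3 := congrArg (Equiv.swap x d) h2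
        rwa [Equiv.swap_apply_self, Equiv.swap_apply_right] at h3
    by_cases h2 : y = x
    · rw [if_pos h2, if_pos (h1.mp h2)]
    · rw [if_neg h2, if_neg (fun h3 => h2 (h1.mpr h3))]

theorem mkperm_dep (p : Equiv.Perm X) : IsDep 1 (mk (fun _ => (1 : T X)) p) := by
  intro x
  rw [sec_mk]
  rfl

theorem LV_of_dl [Finite X] (d : X) (k : ℕ) (hdl : ∀ h ∈ Pk d k, dl d h ∈ Pk d k) (g : T X)
    (hg : ∀ x, sec g x ∈ Pk d k) : g ∈ Pk d k := by
  classical
  have h0 : ∀ (x : X) (h : T X), h ∈ Pk d k → dl x h ∈ Pk d k := by
    intro x h hh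
    rw [dl_conj d x h]
    have h1 := dep_mem d k 1 _ (mkperm_dep (Equiv.swap x d))
    exact mul_mem (mul_mem h1 (hdl h hh)) (inv_mem h1)
  have h1 : ∀ (F : Finset X) (g : T X), root g = 1 → (∀ x, sec g x ∈ Pk d k) →
      (∀ x, x ∉ F → sec g x = 1) → g ∈ Pk d k := by
    intro F
    induction F using Finset.induction_on with
    | empty =>
      intro g h1 _ h2
      have h3 : g = 1 := by
        apply T_ext
        · rw [h1, root_one]
        · intro x
          rw [h2 x (Finset.notMem_empty x), sec_one]
      rw [h3]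
      exact one_mem _
    | insert a F _ ih =>
      intro g h1 h2 h3
      have h4 : g = g * (dl a (sec g a))⁻¹ * dl a (sec g a) := by group
      have hs : ∀ x, sec (g * (dl a (sec g a))⁻¹) x = if x = a then 1 else sec g x := by
        intro x
        rw [sec_mul, sec_inv, root_inv, root_dl, inv_one, Equiv.Perm.one_apply, sec_dl]
        split_ifs with h5
        · rw [h5, mul_inv_cancel]
        · rw [inv_one, mul_one]
      rw [h4]
      refine mul_mem (ih _ ?_ ?_ ?_) (h0 a _ (h2 a))
      · rw [root_mul, root_inv, root_dl, h1, inv_one, mul_one]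
      · intro x
        rw [hs]
        split_ifs
        · exact one_mem _
        · exact h2 x
      · intro x hx
        rw [hs]
        split_ifs with h5
        · rfl
        · exact h3 x (by rw [Finset.mem_insert]; tauto)
  have h2 : g = g * (mk (fun _ => 1) (root g))⁻¹ * mk (fun _ => 1) (root g) := by group
  have := Fintype.ofFinite X
  rw [h2]
  refine mul_mem (h1 Finset.univ _ ?_ ?_ ?_) (dep_mem d k 1 _ (mkperm_dep _))
  · rw [root_mul, root_inv, root_mk, mul_inv_cancel]
  · intro x
    rw [sec_mul, sec_inv, sec_mk, inv_one, mul_one]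
    exact hg _
  · intro x hx
    exact absurd (Finset.mem_univ x) hx

/-- `d` in front of a ray -/
def cns (d : X) (ξ : ℕ → X) : ℕ → X
  | 0 => d
  | n + 1 => ξ n

theorem EP_cns (d : X) (ξ : ℕ → X) (h : EP ξ) : EP (cns d ξ) := by
  obtain ⟨N, m, hm, h⟩ := h
  refine ⟨N + 1, m, hm, fun n hn => ?_⟩
  obtain ⟨n', rfl⟩ : ∃ n', n = n' + 1 := ⟨n - 1, by omega⟩
  rw [Nat.add_right_comm]
  exact h n' (by omega)

theorem dl_cray (d : X) (ξ : ℕ → X) : dl d (cray d ξ) = cray d (cns d ξ) := by
  classical
  apply T_ext
  · rw [root_dl, root_cray]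
    show 1 = Equiv.swap d d
    rw [Equiv.swap_self]
    rfl
  · intro x
    rw [sec_dl]
    split_ifs with h
    · rw [h, sec_cray]
      rfl
    · rw [sec_cray_ne d _ x h]

theorem dl_dep (d : X) (n : ℕ) (g : T X) (h : IsDep n g) : IsDep (n + 1) (dl d g) := by
  classical
  intro x
  rw [sec_dl]
  split_ifs
  · exact h
  · exact isDep_one n

theorem sd_mem (d : X) (Q : Subgroup (T X)) (n : ℕ) : ∀ b ∈ Bs d Q, sd d n b ∈ Bs d Q := by
  induction n with
  | zero => exact fun b hb => hb
  | succ n ih =>
    intro b hb
    apply ih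
    obtain ⟨h1, h2, m, hm, h3⟩ := hb
    refine ⟨fun n => h1 (n + 1), fun n x hx => h2 (n + 1) x hx, m, hm, ?_⟩
    show sd d (m + 1) b = sec b d
    rw [sd_succ', h3]

theorem main [Finite X] (d : X) (k : ℕ) : ∀ g : T X, (∀ x, sec g x ∈ Pk d k) → g ∈ Pk d k := by
  classical
  induction k with
  | zero =>
    apply LV_of_dl
    have h1 : Pz d ≤ (Pz d).comap (dl d) := by
      conv_lhs => rw [Pz]
      rw [Subgroup.closure_le]
      rintro g (⟨n, hn⟩ | ⟨ξ, hξ, rfl⟩)
      · exact Subgroup.subset_closure (Or.inl ⟨n + 1, dl_dep d n g hn⟩)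
      · show dl d (cray d ξ) ∈ Pz d
        rw [dl_cray]
        exact Subgroup.subset_closure (Or.inr ⟨_, EP_cns d ξ hξ, rfl⟩)
    exact fun h hh => h1 hh
  | succ k ih =>
    apply LV_of_dl
    have hle : Pk d k ≤ Pk d (k + 1) := Pk_le d k
    have h1 : Pk d (k + 1) ≤ (Pk d (k + 1)).comap (dl d) := by
      show Pk d k ⊔ Bs d (Pk d k) ≤ _
      apply sup_le
      · intro h hh
        show dl d h ∈ Pk d (k + 1)
        apply hle
        apply ih
        intro x
        rw [sec_dl]
        split_ifs
        · exact hh
        · exact one_mem _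
      · intro b hb
        show dl d b ∈ Pk d (k + 1)
        obtain ⟨m, hm, hm2⟩ := hb.2.2
        obtain ⟨m', rfl⟩ : ∃ m', m = m' + 1 := ⟨m - 1, by omega⟩
        rw [sd_succ'] at hm2
        have hb' := sd_mem d (Pk d k) m' b hb
        have hroot : root (sd d m' b) d = d := hb'.1 0
        have h2 : dl d b = sd d m' b * ((sd d m' b)⁻¹ * dl d b) := by group
        rw [h2]
        have h3 : sd d m' b ∈ Pk d (k + 1) :=
          (le_sup_right : Bs d (Pk d k) ≤ Pk d k ⊔ Bs d (Pk d k)) hb'
        refine mul_mem h3 (hle (ih _ ?_))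
        intro x
        rw [sec_mul, root_dl, Equiv.Perm.one_apply, sec_inv, sec_dl]
        by_cases hx : x = d
        · rw [if_pos hx, hx]
          have h4 : (root (sd d m' b))⁻¹ d = d := by rw [Equiv.Perm.inv_eq_iff_eq, hroot]
          rw [h4, hm2, inv_mul_cancel]
          exact one_mem _
        · rw [if_neg hx, mul_one]
          apply inv_mem
          apply hb'.2.1 0
          intro h4
          rw [Equiv.Perm.inv_eq_iff_eq, hroot] at h4
          exact hx h4
    exact fun h hh => h1 hh

theorem t_LV : Pool.Agent.T2h30.PA.S_LV := by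
  intro X hX d k g hg
  exact main d k g hg

end Pool.Agent.T2h30.PA.LV
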