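import Pool.Agent.T2h30.PA.Stm2

/-!
# Task POLY of project PA: finite-state automorphisms of polynomial activity are in some `P k`
-/

set_option autoImplicit false

namespace Pool.Agent.T2h30.PA.POLY

open Pool.Agent.Y110.FJ Pool.Agent.Y462.SS

variable {X : Type}

theorem secw_append (v w : List X) : ∀ g : T X, secw (v ++ w) g = secw w (secw v g) := by
  induction v with
  | nil => intro g; rfl
  | cons x v ih => intro g; exact ih (sec g x)

/-- the prefix of length `n` of the ray `ξ` -/
def pre : ℕ → (ℕ → X) → List X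
  | 0, _ => []
  | n + 1, ξ => ξ 0 :: pre n (sft ξ)

theorem pre_length (n : ℕ) : ∀ ξ : ℕ → X, (pre n ξ).length = n := by
  induction n with
  | zero => intro ξ; rfl
  | succ n ih => intro ξ; rw [pre, List.length_cons, ih]

theorem secr_eq (n : ℕ) : ∀ (ξ : ℕ → X) (g : T X), secr n ξ g = secw (pre n ξ) g := by
  induction n with
  | zero => intro ξ g; rfl
  | succ n ih => intro ξ g; exact ih (sft ξ) (sec g (ξ 0))

theorem sftn_succ (n : ℕ) (ξ : ℕ → X) : sftn (n + 1) ξ = sftn n (sft ξ) := by
  funext m
  change ξ (m + (n + 1)) = ξ (m + n + 1)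
  rw [Nat.add_assoc]

theorem sftn_zero (ξ : ℕ → X) : sftn 0 ξ = ξ := rfl

theorem pre_add (m n : ℕ) : ∀ ξ : ℕ → X, pre (m + n) ξ = pre m ξ ++ pre n (sftn m ξ) := by
  induction m with
  | zero => intro ξ; rw [Nat.zero_add]; rfl
  | succ m ih =>
    intro ξ
    rw [Nat.add_right_comm, pre, ih, sftn_succ]
    rfl

theorem secr_add (m n : ℕ) : ∀ (ξ : ℕ → X) (g : T X),
    secr (m + n) ξ g = secr n (sftn m ξ) (secr m ξ g) := by
  intro ξ g
  rw [secr_eq, pre_add, secw_append, ← secr_eq, ← secr_eq]

/-! ## The automorphism along the ray -/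

/-- the conjugate of `q` to the ray `d d d ...` -/
noncomputable def bb (d : X) (q : T X) (ξ : ℕ → X) : T X :=
  (cray d (gray q ξ))⁻¹ * q * cray d ξ

theorem gray_zero (q : T X) (ξ : ℕ → X) : gray q ξ 0 = root q (ξ 0) := rfl

theorem gray_sft (q : T X) (ξ : ℕ → X) : sft (gray q ξ) = gray (sec q (ξ 0)) (sft ξ) := rfl

theorem root_cray_d (d : X) (ξ : ℕ → X) : root (cray d ξ) d = ξ 0 := by
  classical
  rw [root_cray, Equiv.swap_apply_left]

theorem root_cray_inv (d : X) (ξ : ℕ → X) : (root (cray d ξ))⁻¹ (ξ 0) = d := by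
  rw [Equiv.Perm.inv_eq_iff_eq, root_cray_d]

theorem root_bb (d : X) (q : T X) (ξ : ℕ → X) : root (bb d q ξ) d = d := by
  rw [bb, root_mul, root_mul, root_inv, Equiv.Perm.mul_apply, Equiv.Perm.mul_apply, root_cray_d,
    ← gray_zero, root_cray_inv]

theorem sec_bb (d : X) (q : T X) (ξ : ℕ → X) :
    sec (bb d q ξ) d = bb d (sec q (ξ 0)) (sft ξ) := by
  rw [bb, sec_mul, sec_mul, sec_inv, root_cray_d, sec_cray, ← gray_zero, root_cray_inv, sec_cray,
    gray_sft]
  rfl

open Classical in
theorem sec_bb_ne (d : X) (q : T X) (ξ : ℕ → X) (y : X) (hy : y ≠ d) :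
    sec (bb d q ξ) y = sec q (Equiv.swap d (ξ 0) y) := by
  rw [bb, sec_mul, sec_mul, sec_inv, sec_cray_ne d ξ y hy, mul_one, root_cray d ξ]
  have h1 : Equiv.swap d (ξ 0) y ≠ ξ 0 := by
    intro h
    apply hy
    have h2 := congrArg (Equiv.swap d (ξ 0)) h
    rw [Equiv.swap_apply_self, Equiv.swap_apply_right] at h2
    exact h2
  have h2 : (root (cray d (gray q ξ)))⁻¹ (root q (Equiv.swap d (ξ 0) y)) ≠ d := by
    intro h
    rw [Equiv.Perm.inv_eq_iff_eq, root_cray_d, gray_zero] at h
    exact h1 ((root q).injective h)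
  rw [sec_cray_ne d _ _ h2, inv_one, one_mul]

theorem sd_bb (d : X) (n : ℕ) : ∀ (q : T X) (ξ : ℕ → X),
    sd d n (bb d q ξ) = bb d (secr n ξ q) (sftn n ξ) := by
  induction n with
  | zero => intro q ξ; rfl
  | succ n ih =>
    intro q ξ
    change sd d n (sec (bb d q ξ) d) = _
    rw [sec_bb, ih, sftn_succ]
    rfl

theorem gray_add (n m : ℕ) (q : T X) (ξ : ℕ → X) :
    gray q ξ (m + n) = gray (secr n ξ q) (sftn n ξ) m := by
  change root (secr (m + n) ξ q) (ξ (m + n)) = root (secr m (sftn n ξ) (secr n ξ q)) (ξ (m + n))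
  rw [Nat.add_comm m n, secr_add]

/-! ## States -/

/-- the states -/
def St (q : T X) : Set (T X) := {h | ∃ v, h = secw v q}

theorem self_mem_St (q : T X) : q ∈ St q := ⟨[], rfl⟩

theorem St_sub (q : T X) (w : List X) : St (secw w q) ⊆ St q := by
  rintro h ⟨v, rfl⟩
  exact ⟨w ++ v, (secw_append w v q).symm⟩

theorem St_lt (q : T X) (hq : (St q).Finite) (w : List X) (h : q ∉ St (secw w q)) :
    (St (secw w q)).ncard < (St q).ncard := by
  refine Set.ncard_lt_ncard ⟨St_sub q w, fun h1 => h (h1 (self_mem_St q))⟩ hq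

theorem Pk_mono (d : X) : Monotone (Pk d) :=
  monotone_nat_of_le_succ fun k => le_sup_left (a := Pk d k) (b := Bs d (Pk d k))

/-- the power of a word -/
def rep (v : List X) : ℕ → List X
  | 0 => []
  | t + 1 => v ++ rep v t

theorem rep_secw (v : List X) (q : T X) (h : secw v q = q) (t : ℕ) : secw (rep v t) q = q := by
  induction t with
  | zero => rfl
  | succ t ih => rw [rep, secw_append, h, ih]

theorem sftn_per (ξ : ℕ → X) (l : ℕ) (h : ∀ n, ξ (n + l) = ξ n) : sftn l ξ = ξ := by
  funext n
  exact h n

theorem rep_eq_pre (ξ : ℕ → X) (l : ℕ) (h : ∀ n, ξ (n + l) = ξ n) (t : ℕ) :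
    rep (pre l ξ) t = pre (l * t) ξ := by
  induction t with
  | zero => rfl
  | succ t ih =>
    rw [rep, ih, Nat.mul_succ, Nat.add_comm (l * t) l, pre_add, sftn_per ξ l h]

/-- every nonempty word is the prefix of a periodic ray -/
theorem exists_ray (v : List X) (hv : v ≠ []) :
    ∃ ξ : ℕ → X, (∀ n, ξ (n + v.length) = ξ n) ∧ pre v.length ξ = v := by
  have hl : 0 < v.length := List.length_pos_iff.2 hv
  have key : ∀ (n : ℕ) (ξ : ℕ → X) (v : List X), v.length = n →
      (∀ i (hi : i < v.length), ξ i = v[i]) → pre n ξ = v := by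
    intro n
    induction n with
    | zero =>
      intro ξ v hv _
      rw [List.length_eq_zero_iff.1 hv]
      rfl
    | succ n ih =>
      intro ξ v hv h
      cases v with
      | nil => simp at hv
      | cons x v =>
        rw [pre, h 0 (by simp), ih (sft ξ) v (by simpa using hv)]
        · rfl
        · intro i hi
          have h2 := h (i + 1) (by simpa using hi)
          change ξ (i + 1) = _
          simpa using h2
  refine ⟨fun n => v[n % v.length]'(Nat.mod_lt _ hl), fun n => ?_, key _ _ _ rfl ?_⟩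
  · simp
  · intro i hi
    simp [Nat.mod_eq_of_lt hi]

/-- comparable words below a ray -/
theorem letter_eq (i : ℕ) : ∀ (ξ : ℕ → X) (y : X) (w : List X) (n : ℕ), i < n →
    (pre i ξ ++ y :: w <+: pre n ξ ∨ pre n ξ <+: pre i ξ ++ y :: w) → y = ξ i := by
  induction i with
  | zero =>
    intro ξ y w n hn h
    obtain ⟨n, rfl⟩ : ∃ m, n = m + 1 := ⟨n - 1, by omega⟩
    rw [pre, pre, List.nil_append] at h
    rcases h with h | h
    · exact (List.cons_prefix_cons.1 h).1
    · exact (List.cons_prefix_cons.1 h).1.symm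
  | succ i ih =>
    intro ξ y w n hn h
    obtain ⟨n, rfl⟩ : ∃ m, n = m + 1 := ⟨n - 1, by omega⟩
    rw [pre, pre, List.cons_append] at h
    refine ih (sft ξ) y w n (by omega) ?_
    rcases h with h | h
    · exact Or.inl (List.cons_prefix_cons.1 h).2
    · exact Or.inr (List.cons_prefix_cons.1 h).2

theorem t_POLY : S_POLY := by
  intro hEXPO hLV X _ d g hfin hpoly
  classical
  have main : ∀ N : ℕ, ∀ u : List X, (St (secw u g)).ncard ≤ N → ∃ k, secw u g ∈ Pk d k := by
    intro N
    induction N with
    | zero =>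
      intro u hu
      exfalso
      have h1 : (St (secw u g)).Finite := hfin.subset (St_sub g u)
      have h2 : 0 < (St (secw u g)).ncard := (Set.ncard_pos h1).2 ⟨_, self_mem_St _⟩
      omega
    | succ N ih =>
      intro u hu
      have hfq : (St (secw u g)).Finite := hfin.subset (St_sub g u)
      obtain ⟨q, hq⟩ : ∃ q, q = secw u g := ⟨_, rfl⟩
      rw [← hq] at hu hfq ⊢
      -- sections with fewer states
      have hsmall : ∀ w : List X, q ∉ St (secw w q) → ∃ k, secw w q ∈ Pk d k := by
        intro w hw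
        have h1 := St_lt q hfq w hw
        have h2 := ih (u ++ w) (by rw [secw_append, ← hq]; omega)
        rwa [secw_append, ← hq] at h2
      by_cases h1 : q = 1
      · exact ⟨0, by rw [h1]; exact one_mem _⟩
      by_cases hret : ∀ x, q ∉ St (sec q x)
      · -- all sections have fewer states
        choose k hk using fun x => hsmall [x] (hret x)
        obtain ⟨K, hK⟩ := (Set.finite_range k).bddAbove
        refine ⟨K, hLV X inferInstance d K q fun x => ?_⟩
        exact Pk_mono d (hK ⟨x, rfl⟩) (hk x)
      · push Not at hret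
        obtain ⟨x, w, hxw⟩ := hret
        obtain ⟨v, hv⟩ : ∃ v, v = x :: w := ⟨_, rfl⟩
        have hvq : secw v q = q := by rw [hv]; exact hxw.symm
        have hv0 : v ≠ [] := by rw [hv]; simp
        have hl : 0 < v.length := List.length_pos_iff.2 hv0
        obtain ⟨ξ, hper, hpre⟩ := exists_ray v hv0
        obtain ⟨l, hlv⟩ : ∃ l, l = v.length := ⟨_, rfl⟩
        rw [← hlv] at hper hpre hl
        have hexpo := hEXPO X inferInstance g hpoly u (by rw [← hq]; exact h1)
        rw [← hq] at hexpo
        -- off the ray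
        have hoff : ∀ (i : ℕ) (y : X), y ≠ ξ i → q ∉ St (secw (pre i ξ ++ [y]) q) := by
          rintro i y hy ⟨w, hw⟩
          rw [← secw_append, List.append_assoc, List.singleton_append] at hw
          apply hy
          have h2 : secw (pre (l * (i + 1)) ξ) q = q := by
            rw [← rep_eq_pre ξ l hper, hpre]
            exact rep_secw v q hvq _
          refine letter_eq i ξ y w (l * (i + 1)) ?_ (hexpo _ _ hw.symm h2)
          nlinarith
        have hoff' : ∀ (i : ℕ) (y : X), y ≠ ξ i → ∃ k, sec (secr i ξ q) y ∈ Pk d k := by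
          intro i y hy
          have h2 := hsmall _ (hoff i y hy)
          rw [secw_append, ← secr_eq] at h2
          exact h2
        have hk : ∀ p : Fin l × X, ∃ k, p.2 ≠ ξ p.1 → sec (secr p.1 ξ q) p.2 ∈ Pk d k := by
          intro p
          by_cases hp : p.2 ≠ ξ p.1
          · obtain ⟨k, hk⟩ := hoff' p.1 p.2 hp
            exact ⟨k, fun _ => hk⟩
          · exact ⟨0, fun h => absurd h hp⟩
        choose k hk using hk
        obtain ⟨K, hK⟩ := (Set.finite_range k).bddAbove
        -- periodicity
        have hsecl : secr l ξ q = q := by rw [secr_eq, hpre, hvq]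
        have hsft := sftn_per ξ l hper
        have hperx : ∀ t r, ξ (l * t + r) = ξ r := by
          intro t
          induction t with
          | zero => intro r; rw [Nat.mul_zero, Nat.zero_add]
          | succ t iht =>
            intro r
            rw [Nat.mul_succ, show l * t + l + r = (l * t + r) + l by ring, hper, iht]
        have hpers : ∀ t r, secr (l * t + r) ξ q = secr r ξ q := by
          intro t
          induction t with
          | zero => intro r; rw [Nat.mul_zero, Nat.zero_add]
          | succ t iht =>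
            intro r
            rw [Nat.mul_succ, show l * t + l + r = l + (l * t + r) by ring, secr_add, hsecl, hsft,
              iht]
        have hall : ∀ (i : ℕ) (y : X), y ≠ ξ i → sec (secr i ξ q) y ∈ Pk d K := by
          intro i y hy
          have h2 : i = l * (i / l) + i % l := (Nat.div_add_mod i l).symm
          rw [h2, hperx] at hy
          rw [h2, hpers]
          have h3 := hk (⟨i % l, Nat.mod_lt _ hl⟩, y) hy
          exact Pk_mono d (hK ⟨_, rfl⟩) h3
        -- the element of `Bs`
        have hb : bb d q ξ ∈ Bs d (Pk d K) := by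
          refine ⟨fun n => ?_, fun n y hy => ?_, l, hl, ?_⟩
          · rw [sd_bb, root_bb]
          · rw [sd_bb, sec_bb_ne _ _ _ _ hy]
            apply hall
            have h2 : sftn n ξ 0 = ξ n := by
              change ξ (0 + n) = ξ n
              rw [Nat.zero_add]
            rw [h2]
            intro h
            apply hy
            have h3 := congrArg (Equiv.swap d (ξ n)) h
            rw [Equiv.swap_apply_self, Equiv.swap_apply_right] at h3
            exact h3
          · rw [sd_bb, hsecl, hsft]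
        have hEP : EP ξ := ⟨0, l, hl, fun n _ => hper n⟩
        have hEP' : EP (gray q ξ) := ⟨0, l, hl, fun n _ => by
          rw [gray_add, hsecl, hsft]⟩
        have hcr : ∀ ζ : ℕ → X, EP ζ → cray d ζ ∈ Pk d (K + 1) := by
          intro ζ hζ
          have h2 : cray d ζ ∈ Pk d 0 := Subgroup.subset_closure (Or.inr ⟨ζ, hζ, rfl⟩)
          exact Pk_mono d (Nat.zero_le _) h2
        have hb' : bb d q ξ ∈ Pk d (K + 1) :=
          (le_sup_right : Bs d (Pk d K) ≤ Pk d K ⊔ Bs d (Pk d K)) hb
        refine ⟨K + 1, ?_⟩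
        have h2 : q = cray d (gray q ξ) * bb d q ξ * (cray d ξ)⁻¹ := by
          rw [bb]
          group
        rw [h2]
        exact mul_mem (mul_mem (hcr _ hEP') hb') (inv_mem (hcr _ hEP))
  obtain ⟨k, hk⟩ := main _ [] le_rfl
  exact ⟨k, hk⟩

end Pool.Agent.T2h30.PA.POLY
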