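import Pool.Agent.T2h30.PA.Stm2
import Pool.Agent.Results.MP_490288_al.BoundedAutomata

/-!
# Project PA, task PZ (helper28)
-/

set_option autoImplicit false

namespace Pool.Agent.T2h30.PA.PZ

open Pool.Agent.Y110.FJ Pool.Agent.Y462.SS Pool.Agent.T2h30.PA

variable {X : Type}

theorem dep_app (k : ℕ) : ∀ g : T X, IsDep k g → ∀ u w : List X, u.length = k →
    g.1 (u ++ w) = g.1 u ++ w := by
  induction k with
  | zero =>
    intro g hg u w hu
    rw [isDep_zero] at hg
    rw [List.length_eq_zero_iff] at hu
    subst hu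
    subst hg
    rfl
  | succ k ih =>
    intro g hg u w hu
    cases u with
    | nil => simp at hu
    | cons x u =>
      rw [List.cons_append, cons_eq, cons_eq, List.cons_append,
        ih (sec g x) (hg x) u w (by simpa using hu)]

theorem dep_at (k : ℕ) (v : List X) : ∀ g : T X, IsDep k g → DepthAt g.1 v k := by
  induction v with
  | nil =>
    intro g hg u w hu
    simpa using dep_app k g hg u w hu
  | cons x v ih =>
    intro g hg u w hu
    have h1 := ih (sec g x) (isDep_sec hg x) u w hu
    rw [List.cons_append, List.cons_append, cons_eq, cons_eq, h1, List.cons_append]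

theorem onRay_cons (d : X) (v : List X) (h : OnRay (fun _ => d) v) :
    OnRay (fun _ => d) (d :: v) := by
  unfold OnRay at h ⊢
  rw [List.ofFn_const] at h ⊢
  rw [List.length_cons, List.replicate_succ, ← h]

theorem cray_app (d : X) (v : List X) : ∀ ξ : ℕ → X, ¬ OnRay (fun _ => d) v →
    ∀ w, (cray d ξ).1 (v ++ w) = (cray d ξ).1 v ++ w := by
  induction v with
  | nil =>
    intro ξ h w
    exact absurd (by unfold OnRay; rfl) h
  | cons x v ih =>
    intro ξ h w
    rw [List.cons_append, cons_eq, cons_eq, List.cons_append]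
    congr 1
    by_cases hx : x = d
    · subst hx
      rw [sec_cray]
      exact ih (sft ξ) (fun h' => h (onRay_cons x v h')) w
    · rw [sec_cray_ne d ξ x hx]
      rfl

theorem cray_bdd (d : X) (ξ : ℕ → X) : IsBdd (cray d ξ).1 := by
  refine ⟨{fun _ => d}, 0, fun v hv u w hu => ?_⟩
  rw [List.length_eq_zero_iff] at hu
  subst hu
  rw [List.append_nil]
  exact cray_app d v ξ (hv _ (Finset.mem_singleton_self _)) w

theorem t_PZ : S_PZ := by
  intro C hC X hX d
  let S : Set (Pz d) := (fun g : Pz d => (g : T X)) ⁻¹'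
    ({g | ∃ k, IsDep k g} ∪ {g | ∃ ξ, EP ξ ∧ g = cray d ξ})
  have hS : Subgroup.closure S = ⊤ := Subgroup.closure_closure_coe_preimage
  refine Pool.Agent.Results.MP_490288_al.BoundedAutomata.result C hC.base X hX (Pz d)
    ((T X).subtype.comp (Pz d).subtype) ?_ S hS ?_ ?_
  · exact (Subgroup.subtype_injective _).comp (Subgroup.subtype_injective _)
  · intro s _
    exact (s : T X).2
  · intro s hs
    left
    rcases hs with ⟨k, hk⟩ | ⟨ξ, -, hξ⟩
    · exact ⟨∅, k, fun v _ => dep_at k v _ hk⟩
    · have h1 : ((T X).subtype.comp (Pz d).subtype) s = (cray d ξ).1 := by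
        rw [← hξ]
        rfl
      rw [h1]
      exact cray_bdd d ξ

end Pool.Agent.T2h30.PA.PZ
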