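import Pool.Agent.T2h30.PA.Stm

/-!
# Task REC of project PA: the recursion of the cover
-/

set_option autoImplicit false

namespace Pool.Agent.T2h30.PA.REC

open Pool.Agent.Y110.FJ Pool.Agent.Y462.SS

variable {X : Type} {d : X} {P B : ℕ → Subgroup (T X)} {k : ℕ}

theorem glue (hT : Tower d P B) (b : T X) (hb : b ∈ B k) (h1 : b ∈ P k) (h2 : b ∈ B (k + 1)) :
    gC P B k ⟨b, h1⟩ = gL P B k ⟨b, h2⟩ := by
  have h := star_glue (fun _ : Unit => incl (B k) (P k)) (fun _ : Unit => incl (B k) (B (k + 1)))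
    () ⟨b, hb⟩
  have h3 : incl (B k) (P k) ⟨b, hb⟩ = ⟨b, h1⟩ := Subtype.ext (incl_apply (hT.B_le_P k) _)
  have h4 : incl (B k) (B (k + 1)) ⟨b, hb⟩ = ⟨b, h2⟩ := Subtype.ext (incl_apply (hT.B_le k) _)
  rw [h3, h4] at h
  exact h

/-- the projection -/
noncomputable def pi (hT : Tower d P B) (k : ℕ) : Gam P B k →* T X :=
  starLift (fun _ : Unit => incl (B k) (P k)) (fun _ : Unit => incl (B k) (B (k + 1)))
    (P k).subtype (fun _ => (B (k + 1)).subtype) (fun _ b => by
      change ((incl (B k) (P k) b : P k) : T X) = ((incl (B k) (B (k + 1)) b : B (k + 1)) : T X)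
      rw [incl_apply (hT.B_le_P k), incl_apply (hT.B_le k)])

theorem pi_C (hT : Tower d P B) (a : P k) : pi hT k (gC P B k a) = a :=
  starLift_C _ _ _ _ _ a

theorem pi_L (hT : Tower d P B) (b : B (k + 1)) : pi hT k (gL P B k b) = b :=
  starLift_L (fun _ : Unit => incl (B k) (P k)) (fun _ : Unit => incl (B k) (B (k + 1)))
    (P k).subtype (fun _ => (B (k + 1)).subtype) _ () b

/-- the recursion on the center -/
noncomputable def psiC (hT : Tower d P B) (k : ℕ) : P k →* Wr X (Gam P B k) where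
  toFun a := ⟨fun x => gC P B k ⟨sec a x, hT.P_sec k a a.2 x⟩, root a⟩
  map_one' := by
    apply Wr.ext
    · funext x
      change gC P B k _ = 1
      rw [← map_one (gC P B k)]
      exact congrArg _ (Subtype.ext (sec_one x))
    · exact root_one
  map_mul' a b := by
    apply Wr.ext
    · funext x
      change gC P B k _ = gC P B k _ * gC P B k _
      rw [← map_mul]
      exact congrArg _ (Subtype.ext (sec_mul a.1 b.1 x))
    · exact root_mul a.1 b.1

open Classical in
/-- the recursion on the leaf -/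
noncomputable def psiL (hT : Tower d P B) (k : ℕ) : B (k + 1) →* Wr X (Gam P B k) where
  toFun b := ⟨fun x => if h : x = d then gL P B k ⟨sec b d, hT.B_sec (k + 1) b b.2⟩ else
    gC P B k ⟨sec b x, hT.B_off k b b.2 x h⟩, root b⟩
  map_one' := by
    apply Wr.ext
    · funext x
      change (if h : x = d then gL P B k _ else gC P B k _) = 1
      by_cases h : x = d
      · rw [dif_pos h, ← map_one (gL P B k)]
        exact congrArg _ (Subtype.ext (sec_one d))
      · rw [dif_neg h, ← map_one (gC P B k)]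
        exact congrArg _ (Subtype.ext (sec_one x))
    · exact root_one
  map_mul' a b := by
    apply Wr.ext
    · funext x
      change (if h : x = d then gL P B k _ else gC P B k _) =
        (if h : root b.1 x = d then gL P B k _ else gC P B k _) *
        (if h : x = d then gL P B k _ else gC P B k _)
      have hb : root b.1 d = d := hT.B_root (k + 1) b b.2
      by_cases h : x = d
      · have h' : root b.1 x = d := by rw [h, hb]
        rw [dif_pos h, dif_pos h', dif_pos h, ← map_mul]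
        refine congrArg _ ?_
        apply Subtype.ext
        change sec (a.1 * b.1) d = sec a.1 d * sec b.1 d
        rw [sec_mul, hb]
      · have h' : root b.1 x ≠ d := by
          intro h2
          exact h ((root b.1).injective (h2.trans hb.symm))
        rw [dif_neg h, dif_neg h', dif_neg h, ← map_mul]
        exact congrArg _ (Subtype.ext (sec_mul a.1 b.1 x))
    · exact root_mul a.1 b.1

theorem psi_compat (hT : Tower d P B) (k : ℕ) (b : B k) :
    psiC hT k (incl (B k) (P k) b) = psiL hT k (incl (B k) (B (k + 1)) b) := by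
  classical
  have h1 : incl (B k) (P k) b = ⟨b.1, hT.B_le_P k b.2⟩ :=
    Subtype.ext (incl_apply (hT.B_le_P k) _)
  have h2 : incl (B k) (B (k + 1)) b = ⟨b.1, hT.B_le k b.2⟩ :=
    Subtype.ext (incl_apply (hT.B_le k) _)
  rw [h1, h2]
  apply Wr.ext
  · funext x
    change gC P B k _ = if h : x = d then gL P B k _ else gC P B k _
    by_cases h : x = d
    · rw [dif_pos h]
      subst h
      exact glue hT (sec b.1 x) (hT.B_sec k b.1 b.2) _ _
    · rw [dif_neg h]
  · rfl

/-- the recursion -/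
noncomputable def psi (hT : Tower d P B) (k : ℕ) : Gam P B k →* Wr X (Gam P B k) :=
  starLift (fun _ : Unit => incl (B k) (P k)) (fun _ : Unit => incl (B k) (B (k + 1)))
    (psiC hT k) (fun _ => psiL hT k) (fun _ b => psi_compat hT k b)

theorem psi_C (hT : Tower d P B) (a : P k) : psi hT k (gC P B k a) = psiC hT k a :=
  starLift_C _ _ _ _ _ a

theorem psi_L (hT : Tower d P B) (b : B (k + 1)) : psi hT k (gL P B k b) = psiL hT k b :=
  starLift_L (fun _ : Unit => incl (B k) (P k)) (fun _ : Unit => incl (B k) (B (k + 1)))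
    (psiC hT k) (fun _ => psiL hT k) _ () b

theorem secC (hT : Tower d P B) (a a' : P k) (x : X) (h : (a' : T X) = sec a x) :
    (psi hT k (gC P B k a)).s x = gC P B k a' := by
  rw [psi_C]
  change gC P B k _ = _
  exact congrArg _ (Subtype.ext h.symm)

theorem secL (hT : Tower d P B) (b b' : B (k + 1)) (h : (b' : T X) = sec b d) :
    (psi hT k (gL P B k b)).s d = gL P B k b' := by
  classical
  rw [psi_L]
  change (if h : d = d then gL P B k _ else gC P B k _) = _
  rw [dif_pos rfl]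
  exact congrArg _ (Subtype.ext h.symm)

theorem secO (hT : Tower d P B) (b : B (k + 1)) (a : P k) (x : X) (hx : x ≠ d)
    (h : (a : T X) = sec b x) : (psi hT k (gL P B k b)).s x = gC P B k a := by
  classical
  rw [psi_L]
  change (if h : x = d then gL P B k _ else gC P B k _) = _
  rw [dif_neg hx]
  exact congrArg _ (Subtype.ext h.symm)

/-- induction for the cover -/
theorem gam_ind {Q : Gam P B k → Prop} (one : Q 1) (ctr : ∀ a x, Q x → Q (gC P B k a * x))
    (leaf : ∀ l x, Q x → Q (gL P B k l * x)) (x : Gam P B k) : Q x :=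
  star_ind _ _ one ctr (fun _ l x hx => leaf l x hx) x

theorem root_C (hT : Tower d P B) (a : P k) : (psi hT k (gC P B k a)).p = root a.1 := by
  rw [psi_C]; rfl

theorem root_L (hT : Tower d P B) (b : B (k + 1)) : (psi hT k (gL P B k b)).p = root b.1 := by
  rw [psi_L]; rfl

theorem root_eq (hT : Tower d P B) (γ : Gam P B k) : root (pi hT k γ) = (psi hT k γ).p := by
  induction γ using gam_ind with
  | one => rw [map_one, map_one, root_one]; rfl
  | ctr a x ih => rw [map_mul, map_mul, root_mul, Wr.mul_p, ih, root_C, pi_C]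
  | leaf l x ih => rw [map_mul, map_mul, root_mul, Wr.mul_p, ih, root_L, pi_L]

theorem sec_eq (hT : Tower d P B) (γ : Gam P B k) :
    ∀ x, sec (pi hT k γ) x = pi hT k ((psi hT k γ).s x) := by
  induction γ using gam_ind with
  | one =>
    intro x
    rw [map_one, map_one, sec_one, Wr.one_s, map_one]
  | ctr a y ih =>
    intro x
    rw [map_mul, map_mul, sec_mul, Wr.mul_s, map_mul, ih, ← root_eq hT y, pi_C]
    refine congrArg (· * _) ?_
    rw [secC hT a ⟨sec a.1 (root (pi hT k y) x), hT.P_sec k a a.2 _⟩ _ rfl, pi_C]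
  | leaf b y ih =>
    intro x
    rw [map_mul, map_mul, sec_mul, Wr.mul_s, map_mul, ih, ← root_eq hT y, pi_L]
    refine congrArg (· * _) ?_
    by_cases h : root (pi hT k y) x = d
    · rw [h, secL hT b ⟨sec b.1 d, hT.B_sec (k + 1) b b.2⟩ rfl, pi_L]
    · rw [secO hT b ⟨sec b.1 (root (pi hT k y) x), hT.B_off k b b.2 _ h⟩ _ h rfl, pi_C]

theorem range_eq (hT : Tower d P B) : (pi hT k).range = P (k + 1) := by
  apply le_antisymm
  · rintro _ ⟨γ, rfl⟩
    induction γ using gam_ind with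
    | one => rw [map_one]; exact one_mem _
    | ctr a x ih =>
      rw [map_mul, pi_C]
      exact mul_mem (hT.P_le k a.2) ih
    | leaf b x ih =>
      rw [map_mul, pi_L]
      refine mul_mem ?_ ih
      rw [hT.P_sup]
      exact (le_sup_right : B (k + 1) ≤ P k ⊔ B (k + 1)) b.2
  · rw [hT.P_sup]
    apply sup_le
    · intro a ha
      exact ⟨gC P B k ⟨a, ha⟩, pi_C hT _⟩
    · intro b hb
      exact ⟨gL P B k ⟨b, hb⟩, pi_L hT _⟩

/-- the elements which are products of `2 n + 1` elements of the center and of the leaf -/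
inductive Rp (P B : ℕ → Subgroup (T X)) (k : ℕ) : ℕ → Gam P B k → Prop
  | zero (a : P k) : Rp P B k 0 (gC P B k a)
  | succ (n : ℕ) (a : P k) (b : B (k + 1)) (γ : Gam P B k) (h : Rp P B k n γ) :
      Rp P B k (n + 1) (gC P B k a * gL P B k b * γ)

theorem Rp.mulC {n : ℕ} {γ : Gam P B k} (h : Rp P B k n γ) (a : P k) :
    Rp P B k n (gC P B k a * γ) := by
  cases h with
  | zero a' =>
    rw [← map_mul]
    exact Rp.zero _
  | succ n a' b γ' h' =>
    rw [← mul_assoc, ← mul_assoc, ← map_mul]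
    exact Rp.succ n _ b γ' h'

theorem Rp.mulL {n : ℕ} {γ : Gam P B k} (h : Rp P B k n γ) (b : B (k + 1)) :
    Rp P B k (n + 1) (gL P B k b * γ) := by
  have h1 := Rp.succ n 1 b γ h
  rwa [map_one, one_mul] at h1

theorem exists_Rp (γ : Gam P B k) : ∃ n, Rp P B k n γ := by
  induction γ using gam_ind with
  | one =>
    refine ⟨0, ?_⟩
    rw [← map_one (gC P B k)]
    exact Rp.zero _
  | ctr a x ih =>
    obtain ⟨n, hn⟩ := ih
    exact ⟨n, hn.mulC a⟩
  | leaf b x ih =>
    obtain ⟨n, hn⟩ := ih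
    exact ⟨n + 1, hn.mulL b⟩

/-- the section of an element of the leaf times an element -/
theorem sec_L_cases (hT : Tower d P B) (b : B (k + 1)) (y : X) :
    (y ≠ d ∧ ∃ a : P k, (psi hT k (gL P B k b)).s y = gC P B k a) ∨
    (y = d ∧ (psi hT k (gL P B k b)).s y = gL P B k ⟨sec b.1 d, hT.B_sec (k + 1) b b.2⟩) := by
  by_cases h : y = d
  · right
    refine ⟨h, ?_⟩
    rw [h]
    exact secL hT b _ rfl
  · left
    exact ⟨h, _, secO hT b ⟨sec b.1 y, hT.B_off k b b.2 _ h⟩ y h rfl⟩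

theorem Rp.secp (hT : Tower d P B) {n : ℕ} {γ : Gam P B k} (h : Rp P B k n γ) :
    ∀ x, ∃ n' ≤ n, Rp P B k n' ((psi hT k γ).s x) := by
  induction h with
  | zero a =>
    intro x
    refine ⟨0, le_rfl, ?_⟩
    rw [secC hT a ⟨sec a.1 x, hT.P_sec k a a.2 _⟩ _ rfl]
    exact Rp.zero _
  | succ n a b γ h ih =>
    intro x
    obtain ⟨n', hn', h'⟩ := ih x
    rw [map_mul, map_mul, Wr.mul_s, Wr.mul_s,
      secC hT a ⟨sec a.1 _, hT.P_sec k a a.2 _⟩ _ rfl, mul_assoc]
    rcases sec_L_cases hT b ((psi hT k γ).p x) with ⟨-, a', ha'⟩ | ⟨-, hb'⟩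
    · rw [ha']
      exact ⟨n', by omega, (h'.mulC _).mulC _⟩
    · rw [hb']
      exact ⟨n' + 1, by omega, (h'.mulL _).mulC _⟩

theorem sd_B (hT : Tower d P B) (j : ℕ) {b : T X} (hb : b ∈ B j) : ∀ n, sd d n b ∈ B j := by
  intro n
  induction n generalizing b with
  | zero => exact hb
  | succ n ih => exact ih (hT.B_sec j b hb)

theorem sd_add (d : X) (m n : ℕ) (g : T X) : sd d (m + n) g = sd d n (sd d m g) := by
  induction m generalizing g with
  | zero => rw [Nat.zero_add]; rfl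
  | succ m ih =>
    rw [Nat.add_right_comm]
    exact ih (sec g d)

theorem sd_mulper (d : X) (m : ℕ) (g : T X) (h : sd d m g = g) (t : ℕ) : sd d (m * t) g = g := by
  induction t with
  | zero => rfl
  | succ t ih => rw [Nat.mul_succ, sd_add, ih, h]

/-- the elements of `B (k + 1)` in `P k` are in `B k` -/
theorem mem_B (hT : Tower d P B) {b : T X} (h1 : b ∈ B (k + 1)) (h2 : b ∈ P k) : b ∈ B k := by
  obtain ⟨n, hn⟩ := hT.fix k b h2 (fun n => hT.B_root (k + 1) _ (sd_B hT (k + 1) h1 n))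
  obtain ⟨m, hm, hper⟩ := hT.per (k + 1) b h1
  have h3 := sd_mulper d m b hper n
  have h4 : m * n = n + (m * n - n) := by
    have : n ≤ m * n := Nat.le_mul_of_pos_left n hm
    omega
  rw [h4, sd_add] at h3
  rw [← h3]
  exact sd_B hT k hn _

/-- the main step: an element of length `n + 2` -/
theorem step (hT : Tower d P B) (n : ℕ)
    (IH : ∀ n' < n + 2, ∀ γ, Rp P B k n' γ → pi hT k γ = 1 → Dies (psi hT k) γ)
    (a₀ : P k) (b₁ : B (k + 1)) (a₁ : P k) (b₂ : B (k + 1)) (γ : Gam P B k) (hγ : Rp P B k n γ)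
    (hpi : pi hT k (gC P B k a₀ * gL P B k b₁ * (gC P B k a₁ * gL P B k b₂ * γ)) = 1)
    (H : root a₁.1 d = d → ∀ (a₀' : P k) (γ' : Gam P B k), Rp P B k n γ' →
      pi hT k (gC P B k a₀' * gL P B k ⟨sec b₁.1 d, hT.B_sec (k + 1) b₁ b₁.2⟩ *
        (gC P B k ⟨sec a₁.1 d, hT.P_sec k a₁ a₁.2 d⟩ *
          gL P B k ⟨sec b₂.1 d, hT.B_sec (k + 1) b₂ b₂.2⟩ * γ')) = 1 →
      Dies (psi hT k) (gC P B k a₀' * gL P B k ⟨sec b₁.1 d, hT.B_sec (k + 1) b₁ b₁.2⟩ *
        (gC P B k ⟨sec a₁.1 d, hT.P_sec k a₁ a₁.2 d⟩ *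
          gL P B k ⟨sec b₂.1 d, hT.B_sec (k + 1) b₂ b₂.2⟩ * γ'))) :
    Dies (psi hT k) (gC P B k a₀ * gL P B k b₁ * (gC P B k a₁ * gL P B k b₂ * γ)) := by
  refine Dies.step _ ?_ fun x => ?_
  · rw [← root_eq, hpi, root_one]
  have hpx : pi hT k ((psi hT k (gC P B k a₀ * gL P B k b₁ *
      (gC P B k a₁ * gL P B k b₂ * γ))).s x) = 1 := by
    rw [← sec_eq, hpi, sec_one]
  obtain ⟨n', hn', h'⟩ := hγ.secp hT x
  obtain ⟨y, hy⟩ : ∃ y, y = (psi hT k γ).p x := ⟨_, rfl⟩
  obtain ⟨u, hu⟩ : ∃ u, u = root b₂.1 y := ⟨_, rfl⟩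
  obtain ⟨z, hz⟩ : ∃ z, z = root a₁.1 u := ⟨_, rfl⟩
  have hsec : ∃ a₀' : P k, (psi hT k (gC P B k a₀ * gL P B k b₁ *
      (gC P B k a₁ * gL P B k b₂ * γ))).s x = gC P B k a₀' * (psi hT k (gL P B k b₁)).s z *
      (gC P B k ⟨sec a₁.1 u, hT.P_sec k a₁ a₁.2 u⟩ * (psi hT k (gL P B k b₂)).s y *
        (psi hT k γ).s x) := by
    refine ⟨⟨sec a₀.1 (root b₁.1 z), hT.P_sec k a₀ a₀.2 _⟩, ?_⟩
    rw [map_mul, map_mul, map_mul, map_mul, Wr.mul_s, Wr.mul_s, Wr.mul_s, Wr.mul_s, Wr.mul_p,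
      Wr.mul_p, Equiv.Perm.mul_apply, Equiv.Perm.mul_apply, root_C, root_L, root_L, ← hy, ← hu,
      ← hz]
    rw [secC hT a₀ ⟨sec a₀.1 (root b₁.1 z), hT.P_sec k a₀ a₀.2 _⟩ _ rfl,
      secC hT a₁ ⟨sec a₁.1 u, hT.P_sec k a₁ a₁.2 u⟩ _ rfl]
  obtain ⟨a₀', hs⟩ := hsec
  rw [hs] at hpx ⊢
  rcases sec_L_cases hT b₂ y with ⟨-, a', ha'⟩ | ⟨hyd, hb'⟩
  · -- the second leaf disappears
    rw [ha'] at hpx ⊢
    rcases sec_L_cases hT b₁ z with ⟨-, a'', ha''⟩ | ⟨-, hb''⟩
    · rw [ha''] at hpx ⊢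
      refine IH n' (by omega) _ ?_ hpx
      rw [mul_assoc, mul_assoc]
      exact (((h'.mulC _).mulC _).mulC _).mulC _
    · rw [hb''] at hpx ⊢
      refine IH (n' + 1) (by omega) _ ?_ hpx
      rw [mul_assoc, mul_assoc]
      exact (((h'.mulC _).mulC _).mulL _).mulC _
  · rw [hb'] at hpx ⊢
    rcases sec_L_cases hT b₁ z with ⟨-, a'', ha''⟩ | ⟨hzd, hb''⟩
    · rw [ha''] at hpx ⊢
      refine IH (n' + 1) (by omega) _ ?_ hpx
      rw [mul_assoc, mul_assoc]
      exact (((h'.mulL _).mulC _).mulC _).mulC _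
    · rw [hb''] at hpx ⊢
      have hud : u = d := by
        rw [hu, hyd]
        exact hT.B_root (k + 1) b₂ b₂.2
      subst hud
      have hroot : root a₁.1 u = u := by rw [← hz, hzd]
      rcases hn'.lt_or_eq with hlt | heq
      · refine IH (n' + 2) (by omega) _ ?_ hpx
        rw [mul_assoc, mul_assoc]
        exact (((h'.mulL _).mulC _).mulL _).mulC _
      · subst heq
        exact H hroot a₀' _ h' hpx

theorem dies_Rp (hT : Tower d P B) (n : ℕ) :
    ∀ γ, Rp P B k n γ → pi hT k γ = 1 → Dies (psi hT k) γ := by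
  induction n using Nat.strong_induction_on with
  | _ n IH =>
    intro γ hγ hpi
    cases hγ with
    | zero a =>
      rw [pi_C] at hpi
      have h1 : a = 1 := Subtype.ext hpi
      rw [h1, map_one]
      exact Dies.one
    | succ n a₀ b₁ γ₁ hγ₁ =>
      cases hγ₁ with
      | zero a₁ =>
        have h1 : b₁.1 ∈ P k := by
          rw [map_mul, map_mul, pi_C, pi_C, pi_L] at hpi
          have h2 : b₁.1 = (a₀.1)⁻¹ * (a₁.1)⁻¹ := by
            rw [eq_mul_inv_iff_mul_eq]
            rw [mul_assoc] at hpi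
            exact eq_inv_of_mul_eq_one_right hpi
          rw [h2]
          exact mul_mem (inv_mem a₀.2) (inv_mem a₁.2)
        have h2 : gL P B k b₁ = gC P B k ⟨b₁.1, h1⟩ :=
          (glue hT b₁.1 (mem_B hT b₁.2 h1) h1 b₁.2).symm
        rw [h2, ← map_mul, ← map_mul] at hpi ⊢
        rw [pi_C] at hpi
        have h3 : a₀ * ⟨b₁.1, h1⟩ * a₁ = 1 := Subtype.ext hpi
        rw [h3, map_one]
        exact Dies.one
      | succ n a₁ b₂ γ₂ hγ₂ =>
        have hm : ∃ m, (root (sd d m a₁.1) d ≠ d ∨ sd d m a₁.1 ∈ B k) := by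
          by_cases h : ∀ m, root (sd d m a₁.1) d = d
          · obtain ⟨m, hm⟩ := hT.fix k a₁.1 a₁.2 h
            exact ⟨m, Or.inr hm⟩
          · push Not at h
            obtain ⟨m, hm⟩ := h
            exact ⟨m, Or.inl hm⟩
        obtain ⟨m, hm⟩ := hm
        induction m generalizing a₀ b₁ a₁ b₂ γ₂ with
        | zero =>
          rcases hm with hm | hm
          · refine step hT n IH a₀ b₁ a₁ b₂ γ₂ hγ₂ hpi ?_
            intro h
            exact absurd h hm
          · -- merge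
            have h2 : gC P B k a₁ = gL P B k ⟨a₁.1, hT.B_le k hm⟩ :=
              glue hT a₁.1 hm a₁.2 (hT.B_le k hm)
            have h3 : gC P B k a₀ * gL P B k b₁ * (gC P B k a₁ * gL P B k b₂ * γ₂) =
                gC P B k a₀ * gL P B k (b₁ * ⟨a₁.1, hT.B_le k hm⟩ * b₂) * γ₂ := by
              rw [h2, map_mul, map_mul]
              simp only [mul_assoc]
            rw [h3] at hpi ⊢
            exact IH (n + 1) (by omega) _ (Rp.succ n _ _ _ hγ₂) hpi
        | succ m ih =>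
          refine step hT n IH a₀ b₁ a₁ b₂ γ₂ hγ₂ hpi ?_
          intro _ a₀' γ' hγ' hpi'
          exact ih a₀' _ _ _ γ' hγ' hpi' hm

end Pool.Agent.T2h30.PA.REC

namespace Pool.Agent.T2h30.PA.REC

open Pool.Agent.Y110.FJ Pool.Agent.Y462.SS

theorem t_REC : S_REC := by
  intro X d P B hT k
  refine ⟨psi hT k, pi hT k, ⟨root_eq hT, sec_eq hT, ?_, range_eq hT⟩, pi_C hT, pi_L hT,
    secC hT, secL hT, secO hT⟩
  intro γ hγ
  obtain ⟨n, hn⟩ := exists_Rp γ
  exact dies_Rp hT n γ hn hγ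

end Pool.Agent.T2h30.PA.REC
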