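import Pool.Agent.T2h30.PA.Stm2

/-!
# Project PA, task TOW: the groups `Pk`, `Bk` form a tower
-/

set_option autoImplicit false

namespace Pool.Agent.T2h30.PA.TOW

open Pool.Agent.Y110.FJ Pool.Agent.Y462.SS Pool.Agent.T2h30.PA

variable {X : Type}

theorem Bs_mono (d : X) {Q Q' : Subgroup (T X)} (h : Q ≤ Q') : Bs d Q ≤ Bs d Q' := by
  rintro b ⟨h1, h2, h3⟩
  exact ⟨h1, fun n x hx => h (h2 n x hx), h3⟩

theorem Pk_le (d : X) (k : ℕ) : Pk d k ≤ Pk d (k + 1) := le_sup_left

theorem Bk_le (d : X) (k : ℕ) : Bk d k ≤ Bk d (k + 1) := by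
  cases k with
  | zero => exact bot_le
  | succ k => exact Bs_mono d (Pk_le d k)

theorem Bs_sec (d : X) {Q : Subgroup (T X)} {b : T X} (hb : b ∈ Bs d Q) : sec b d ∈ Bs d Q := by
  obtain ⟨h1, h2, m, hm, h3⟩ := hb
  refine ⟨fun n => h1 (n + 1), fun n x hx => h2 (n + 1) x hx, m, hm, ?_⟩
  show sd d (m + 1) b = sec b d
  rw [sd_succ', h3]

theorem Pk_mono (d : X) {k l : ℕ} (h : k ≤ l) : Pk d k ≤ Pk d l := by
  induction l, h using Nat.le_induction with
  | base => exact le_rfl
  | succ m _ ih => exact ih.trans (Pk_le d m)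

theorem EP_sft {ξ : ℕ → X} (h : EP ξ) : EP (sft ξ) := by
  obtain ⟨N, m, hm, h⟩ := h
  refine ⟨N, m, hm, fun i hi => ?_⟩
  show ξ (i + m + 1) = ξ (i + 1)
  rw [Nat.add_right_comm]
  exact h (i + 1) (by omega)

/-- the elements with all sections in `Q` and which lie in `Q` form a subgroup -/
def SG (Q : Subgroup (T X)) : Subgroup (T X) where
  carrier := {g | ∀ x, sec g x ∈ Q}
  one_mem' := fun x => by rw [sec_one]; exact one_mem _
  mul_mem' := by
    intro a b ha hb x
    rw [sec_mul]
    exact mul_mem (ha _) (hb _)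
  inv_mem' := by
    intro a ha x
    rw [sec_inv]
    exact inv_mem (ha _)

theorem Pk_sec (d : X) (k : ℕ) : Pk d k ≤ SG (Pk d k) := by
  classical
  induction k with
  | zero =>
    show Pz d ≤ SG (Pz d)
    conv_lhs => rw [Pz]
    rw [Subgroup.closure_le]
    rintro g (⟨n, hn⟩ | ⟨ξ, hξ, rfl⟩) x
    · exact Subgroup.subset_closure (Or.inl ⟨n, isDep_sec hn x⟩)
    · by_cases hx : x = d
      · subst hx
        rw [sec_cray]
        exact Subgroup.subset_closure (Or.inr ⟨_, EP_sft hξ, rfl⟩)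
      · rw [sec_cray_ne d ξ x hx]
        exact one_mem _
  | succ k ih =>
    show Pk d k ⊔ Bs d (Pk d k) ≤ _
    apply sup_le
    · intro g hg x
      exact Pk_le d k (ih hg x)
    · intro b hb x
      by_cases hx : x = d
      · subst hx
        exact (le_sup_right : Bs x (Pk x k) ≤ Pk x k ⊔ Bs x (Pk x k)) (Bs_sec x hb)
      · exact Pk_le d k (hb.2.1 0 x hx)

theorem Bk_le_Pk (d : X) (k : ℕ) : Bk d k ≤ Pk d k := by
  cases k with
  | zero => exact bot_le
  | succ k => exact le_sup_right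

theorem secr_const (d : X) (n : ℕ) : ∀ g : T X, secr n (fun _ => d) g = sd d n g := by
  induction n with
  | zero => intro g; rfl
  | succ n ih => intro g; exact ih (sec g d)

theorem t_TOW : Pool.Agent.T2h30.PA.S_TOW := by
  intro hG X d
  refine ⟨Pk_le d, Bk_le d, Bk_le_Pk d, rfl, fun k => rfl, fun k g hg x => Pk_sec d k hg x,
    ?_, ?_, ?_, ?_, ?_⟩
  · intro k b hb
    cases k with
    | zero =>
      have h1 : b = 1 := Subgroup.mem_bot.mp hb
      rw [h1, root_one]
      rfl
    | succ k => exact hb.1 0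
  · intro k b hb
    cases k with
    | zero =>
      have h1 : b = 1 := Subgroup.mem_bot.mp hb
      rw [h1, sec_one]
      exact one_mem _
    | succ k => exact Bs_sec d hb
  · intro k b hb x hx
    exact hb.2.1 0 x hx
  · intro k g hg hfix
    obtain ⟨_, n, b, hb, h⟩ := hG X d k g hg (fun _ => d) ⟨0, 1, one_pos, fun _ _ => rfl⟩
    have h1 : gray g (fun _ => d) = fun _ => d := by
      funext i
      show root (secr i (fun _ => d) g) d = d
      rw [secr_const]
      exact hfix i
    have h2 : sftn n (fun _ : ℕ => d) = fun _ => d := rfl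
    rw [h1, h2, cray_const, secr_const, inv_one, one_mul, mul_one] at h
    exact ⟨n, by rw [h]; exact hb⟩
  · intro k b hb
    cases k with
    | zero =>
      have h1 : b = 1 := Subgroup.mem_bot.mp hb
      exact ⟨1, one_pos, by rw [h1, sd_one]⟩
    | succ k => exact hb.2.2

end Pool.Agent.T2h30.PA.TOW
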