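import Pool.Agent.T2h30.PA.Stm
import Pool.Agent.Y961.FJ.Perm
import Pool.Agent.Y529.FJ.Ext

/-! Task TT of project PA (helper25). -/

set_option autoImplicit false

namespace Pool.Agent.T2h30.PA.TT

open Pool.Agent.Y110.FJ Pool.Agent.Y462.SS Pool.Agent.T2h30.PA

theorem t_TT (h : S_EMB) : S_TT := by
  intro C hC A ι _ L K _ _ φ κ Q _ f g hfg hf hg hQ
  obtain ⟨Θ, hΘ, -, -⟩ := h A ι L K φ κ Q ι (fun i => ((g i).comp (κ i)).range) id f g hfg
    Function.injective_id hf hg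
    (fun i k => ⟨k, (hfg i k).symm⟩)
    (fun i a ha => by
      obtain ⟨k, hk⟩ := ha
      refine ⟨k, hf ?_⟩
      rw [hfg]
      exact hk)
    (fun i l hl => by
      obtain ⟨k, hk⟩ := hl
      exact ⟨k, hg i hk⟩)
  exact hC.base.of_injective _ _ Θ hΘ
    (Pool.Agent.Y961.FJ.t_perm Pool.Agent.Y529.FJ.t_ext C hC _ Q hQ)

end Pool.Agent.T2h30.PA.TT
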