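import Pool.Agent.T2h30.PA.T_EMB
import Pool.Agent.T2h30.PA.T_TT
import Pool.Agent.T2h30.PA.T_JJ
import Pool.Agent.T2h30.PA.T_REC
import Pool.Agent.T2h30.PA.T_LIM
import Pool.Agent.T2h30.PA.T_A
import Pool.Agent.T2h30.PA.T_B
import Pool.Agent.T2h30.PA.T_FOLD
import Pool.Agent.T2h30.PA.T_SUB
import Pool.Agent.T2h30.PA.T_INIT
import Pool.Agent.T2h30.PA.T_MAIN
import Pool.Agent.T2h30.PA.T_GERM
import Pool.Agent.T2h30.PA.T_TOW
import Pool.Agent.T2h30.PA.T_LV
import Pool.Agent.T2h30.PA.T_PZ
import Pool.Agent.T2h30.PA.T_BC
import Pool.Agent.T2h30.PA.T_EXPO
import Pool.Agent.T2h30.PA.T_POLY
import Pool.Agent.T2h30.PA.T_TRA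
import Pool.Agent.T2h30.PA.T_FIN

/-!
# Groups generated by automata of polynomial activity are Farrell–Jones groups

`C` is any class of groups with the closure properties `ClosedE C`: it contains the infinite cyclic
group, it is closed under subgroups, finite products, free products, overgroups of finite index and
colimits of directed systems, and it contains `G` if there is a surjection from `G` to a group `Q` in `C`
such that the preimages of all virtually cyclic subgroups of `Q` are in `C`. All this is known for the
class of the groups whose wreath products with finite groups satisfy the K- and L-theoretic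
Farrell–Jones conjecture with coefficients.

The automorphisms of the rooted tree of the words over a finite set `X` which have finitely many
sections and such that the number of nontrivial sections of level `n` is at most `a (n + 1) ^ k` were
introduced by Sidki; those for a given `k` form a group. The case `k = 0` (bounded automata) is the
starting result `MP_490288_al.BoundedAutomata`. For `k = 1, 2` these groups are amenable (Amir, Angel,
Virág; Juschenko, Nekrashevych, de la Salle), for `k ≥ 3` this is open; amenable groups are not known
to satisfy the Farrell–Jones conjecture.

Outline of the proof. Fix a letter `d`. Let `P 0` be generated by the automorphisms of finite depth and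
by the automorphisms which move the ray `d d d ...` to an eventually periodic ray and are trivial off the
ray `d d d ...`; let `B 0 = 1`. Let `B (k + 1)` be the group of the automorphisms which fix the ray
`d d d ...`, are periodic along it and have all sections off the ray in `P k`, and
`P (k + 1) = ⟨P k, B (k + 1)⟩`. Every finite-state automorphism of polynomial activity is in some `P k`.
If an element of `P k` fixes the ray `d d d ...` then one of its sections on the ray is in `B k`.
Therefore `P (k + 1)` is the quotient of the amalgam `Γ` of `P k` and `B (k + 1)` over `B k` by the elements
which are trivialized by the iterated recursions `Γ → Γ ≀ Perm X`, so that it is enough to prove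
that `Γ` is in `C`. For this one deforms the edge group: the amalgam of `P k` and `B (k + 1)` over `B 0 = 1` is a
free product, and the step from `B m` to `B (m + 1)` is done with the help of star amalgams. The center
is `P e`, with leaves `P E` attached along `P c` and `B (E + 1)` attached along `B (c + 1)`, for finitely
many pairs `(c, E)`, `c < e ≤ E`. A star amalgam with a homomorphism to a group `Q` in `C` which
is injective on the center and on the leaves is in `C`: it embeds into `F ⋊ Q`, `F` a free group on a
set with an action of `Q`. This is applied to the recursion from the star whose center is the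
quotient `Γ ⧸ K (n + 1)` of the cover `Γ` of `P e` by the elements which die in `n + 1` steps, to the wreath
product of the star with center `Γ ⧸ K n` and `Perm X`; here the leaves `P E` receive the sections of the
elements of `B (E + 1)` off the ray, so that these do not have to be in the center. In the colimit
this reduces the center `P e` to the center `Γ`, which is a star with center `P (e - 1)`, and then a
layer `(c, E)` with `c = e - 1` can be eliminated, because the leaf `P E` becomes the center. A double
induction on the indices finishes the proof.

Contributors to the Lean code: helper1, helper2, helper25, helper28, helper46, helper71, helper30.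
-/

set_option autoImplicit false

namespace Pool.Agent.T2h30.PA.PolynomialAutomata

open Pool.Agent.Y110.FJ Pool.Agent.Y462.SS Pool.Agent.T2h30.PA

theorem emb : S_EMB := EMB.t_EMB
theorem tt : S_TT := TT.t_TT emb
theorem jj : S_JJ := JJ.t_JJ emb

/-- the groups of a tower are in `C` -/
theorem tower (C : ∀ (G : Type) [Group G], Prop) (hC : ClosedE C) (X : Type) (hX : Finite X)
    (d : X) (P B : ℕ → Subgroup (T X)) (ht : Tower d P B) (h0 : C (P 0))
    (hB : ∀ k, C (P k) → C (B (k + 1))) (k : ℕ) : C (P k) :=
  MAIN.t_MAIN Pool.Agent.T2h30.PA.A.t_A Pool.Agent.T2h30.PA.B.t_B FOLD.t_FOLD SUB.t_SUB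
    INIT.t_INIT REC.t_REC tt jj LIM.t_LIM C hC X hX d P B ht h0 hB k

/-- Let `C` be a class of groups with the closure properties `ClosedE C`. Every group `G` of
automorphisms of a regular rooted tree `X^*`, `X` finite, which is generated by finite-state
automorphisms of polynomial activity (of any degree) is in `C`. -/
theorem result (C : ∀ (G : Type) [Group G], Prop) (hC : ClosedE C) (X : Type) (hX : Finite X)
    (G : Type) [Group G] (f : G →* Equiv.Perm (List X)) (hf : Function.Injective f)
    (S : Set G) (hS : Subgroup.closure S = ⊤) (hT : ∀ s ∈ S, IsTree (f s))
    (hF : ∀ s ∈ S, (Sections (f s)).Finite) (hP : ∀ s ∈ S, PolyActivity (f s)) : C G :=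
  FIN.t_FIN tower (TOW.t_TOW GERM.t_GERM) PZ.t_PZ BC.t_BC
    (POLY.t_POLY EXPO.t_EXPO LV.t_LV) TRA.t_TRA C hC X hX G f hf S hS hT hF hP

end Pool.Agent.T2h30.PA.PolynomialAutomata
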