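import Pool.Agent.Y110.FJ.Stm

/-!
# Star amalgams (project PA, helper30)

`Star φ κ` is the group generated by a group `A` (the center) and groups `L i` (the leaves), where for
each `i` the images of the group `K i` under `φ i : K i →* A` and `κ i : K i →* L i` are identified.
-/

set_option autoImplicit false

namespace Pool.Agent.T2h30.PA

variable {A : Type} [Group A] {ι : Type} {L K : ι → Type} [∀ i, Group (L i)] [∀ i, Group (K i)]

/-- the relations of the star amalgam -/
def starRel (φ : ∀ i, K i →* A) (κ : ∀ i, K i →* L i) :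
    Set (Monoid.Coprod A (Monoid.CoprodI L)) :=
  {r | ∃ (i : ι) (k : K i), r = Monoid.Coprod.inl (φ i k) *
    (Monoid.Coprod.inr (Monoid.CoprodI.of (κ i k)))⁻¹}

/-- the star amalgam -/
def Star (φ : ∀ i, K i →* A) (κ : ∀ i, K i →* L i) : Type :=
  Monoid.Coprod A (Monoid.CoprodI L) ⧸ Subgroup.normalClosure (starRel φ κ)

noncomputable instance (φ : ∀ i, K i →* A) (κ : ∀ i, K i →* L i) : Group (Star φ κ) :=
  inferInstanceAs (Group (Monoid.Coprod A (Monoid.CoprodI L) ⧸
    Subgroup.normalClosure (starRel φ κ)))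

/-- the projection -/
noncomputable def starMk (φ : ∀ i, K i →* A) (κ : ∀ i, K i →* L i) :
    Monoid.Coprod A (Monoid.CoprodI L) →* Star φ κ :=
  QuotientGroup.mk' (Subgroup.normalClosure (starRel φ κ))

/-- the map of the center -/
noncomputable def starC (φ : ∀ i, K i →* A) (κ : ∀ i, K i →* L i) : A →* Star φ κ :=
  (starMk φ κ).comp Monoid.Coprod.inl

/-- the maps of the leaves -/
noncomputable def starL (φ : ∀ i, K i →* A) (κ : ∀ i, K i →* L i) (i : ι) : L i →* Star φ κ :=
  (starMk φ κ).comp (Monoid.Coprod.inr.comp Monoid.CoprodI.of)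

theorem star_glue (φ : ∀ i, K i →* A) (κ : ∀ i, K i →* L i) (i : ι) (k : K i) :
    starC φ κ (φ i k) = starL φ κ i (κ i k) := by
  have h1 : Monoid.Coprod.inl (φ i k) * (Monoid.Coprod.inr (Monoid.CoprodI.of (κ i k)))⁻¹ ∈
      Subgroup.normalClosure (starRel φ κ) :=
    Subgroup.subset_normalClosure ⟨i, k, rfl⟩
  have h2 : starMk φ κ (Monoid.Coprod.inl (φ i k) *
      (Monoid.Coprod.inr (Monoid.CoprodI.of (κ i k)))⁻¹) = 1 :=
    (QuotientGroup.eq_one_iff _).2 h1
  rw [map_mul, map_inv, mul_inv_eq_one] at h2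
  exact h2

/-- the universal property -/
noncomputable def starLift (φ : ∀ i, K i →* A) (κ : ∀ i, K i →* L i) {H : Type} [Group H]
    (f : A →* H) (g : ∀ i, L i →* H) (h : ∀ i k, f (φ i k) = g i (κ i k)) : Star φ κ →* H :=
  QuotientGroup.lift (Subgroup.normalClosure (starRel φ κ))
    (Monoid.Coprod.lift f (Monoid.CoprodI.lift g)) (by
      intro x hx
      have h1 : Subgroup.normalClosure (starRel φ κ) ≤
          (Monoid.Coprod.lift f (Monoid.CoprodI.lift g)).ker := by
        apply Subgroup.normalClosure_le_normal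
        rintro _ ⟨i, k, rfl⟩
        rw [SetLike.mem_coe, MonoidHom.mem_ker, map_mul, map_inv, Monoid.Coprod.lift_apply_inl,
          Monoid.Coprod.lift_apply_inr, Monoid.CoprodI.lift_of, h, mul_inv_cancel]
      exact h1 hx)

theorem starLift_C (φ : ∀ i, K i →* A) (κ : ∀ i, K i →* L i) {H : Type} [Group H]
    (f : A →* H) (g : ∀ i, L i →* H) (h : ∀ i k, f (φ i k) = g i (κ i k)) (a : A) :
    starLift φ κ f g h (starC φ κ a) = f a :=
  Monoid.Coprod.lift_apply_inl f (Monoid.CoprodI.lift g) a

theorem starLift_L (φ : ∀ i, K i →* A) (κ : ∀ i, K i →* L i) {H : Type} [Group H]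
    (f : A →* H) (g : ∀ i, L i →* H) (h : ∀ i k, f (φ i k) = g i (κ i k)) (i : ι) (l : L i) :
    starLift φ κ f g h (starL φ κ i l) = g i l := by
  have h1 := Monoid.Coprod.lift_apply_inr f (Monoid.CoprodI.lift g) (Monoid.CoprodI.of l)
  rw [Monoid.CoprodI.lift_of] at h1
  exact h1

/-- two homomorphisms which agree on the center and on the leaves are equal -/
theorem star_ext (φ : ∀ i, K i →* A) (κ : ∀ i, K i →* L i) {H : Type} [Group H]
    (p q : Star φ κ →* H) (h1 : ∀ a, p (starC φ κ a) = q (starC φ κ a))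
    (h2 : ∀ i l, p (starL φ κ i l) = q (starL φ κ i l)) : p = q := by
  have h3 : p.comp (starMk φ κ) = q.comp (starMk φ κ) := by
    apply Monoid.Coprod.hom_ext
    · ext a
      exact h1 a
    · apply Monoid.CoprodI.ext_hom
      intro i
      ext l
      exact h2 i l
  ext x
  obtain ⟨y, rfl⟩ := QuotientGroup.mk_surjective x
  exact DFunLike.congr_fun h3 y

/-- induction -/
theorem star_ind (φ : ∀ i, K i →* A) (κ : ∀ i, K i →* L i) {P : Star φ κ → Prop}
    (one : P 1) (ctr : ∀ a x, P x → P (starC φ κ a * x))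
    (leaf : ∀ i l x, P x → P (starL φ κ i l * x)) (x : Star φ κ) : P x := by
  obtain ⟨y, rfl⟩ := QuotientGroup.mk_surjective x
  have key : ∀ y : Monoid.Coprod A (Monoid.CoprodI L), ∀ z, P z → P (starMk φ κ y * z) := by
    intro y
    induction y using Monoid.Coprod.induction_on with
    | inl a => exact fun z hz => ctr a z hz
    | inr w =>
      induction w using Monoid.CoprodI.induction_on with
      | one => intro z hz; rw [map_one, map_one, one_mul]; exact hz
      | of i l => exact fun z hz => leaf i l z hz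
      | mul a b ha hb => intro z hz; rw [map_mul, map_mul, mul_assoc]; exact ha _ (hb z hz)
    | mul a b ha hb => intro z hz; rw [map_mul, mul_assoc]; exact ha _ (hb z hz)
  have := key y 1 one
  rw [mul_one] at this
  exact this

end Pool.Agent.T2h30.PA
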