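import Pool.Agent.T2h30.PA.Star
import Pool.Agent.Y331.SS.Lim
import Pool.Agent.Y462.SS.Cover

/-!
# Project PA (helper30): groups of automata of polynomial activity are Farrell–Jones groups

THEOREM (MP_9d1ffa_al). Let `C` be a class of groups with the closure properties `ClosedE C` (all known
for the groups that satisfy the full Farrell–Jones conjecture). Every group generated by finite-state
automorphisms of polynomial activity (of any degree, Sidki) of a regular rooted tree is in `C`.

PROOF. `P 0` is generated by the finitary automorphisms and the automorphisms which move the ray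
`d d d ...` to an eventually periodic ray; `B (k+1)` is the group of the automorphisms which fix the ray
`d d d ...`, are periodic along it and have their sections off the ray in `P k`;
`P (k+1) = ⟨P k, B (k+1)⟩`, `B 0 = 1`. The amalgam `Γ = P k *_{B k} B (k+1)` has a recursion, and `P (k+1)` is
the quotient by the elements that die; so `P (k+1)` is in `C` if `Γ` is. To prove that `Γ` is in `C`
amalgams `P k *_{B m} B (k+1)` are considered for `m = 0, ..., k` (`m = 0`: free product). The step from
`m` to `m + 1` uses star amalgams with center `P e` and leaves `P E` (attached along `P c`),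
`B (E+1)` (attached along `B (c+1)`). A star amalgam with a homomorphism to a group in `C` which is
injective on the center and on the leaves is in `C` (`S_TT`). Approximating the center `P e` by the
quotients of its cover by the kernels of the iterated recursions one gets that the star with
center `P e` is in `C` if the star with center the cover of `P e` is, and the latter is a star with a center
of smaller index and one more leaf (`S_A`), or without the layer of index `e` (`S_B`). A double
induction (`S_MAIN`) finishes the proof.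
-/

set_option autoImplicit false

namespace Pool.Agent.T2h30.PA

open Pool.Agent.Y110.FJ Pool.Agent.Y462.SS

/-! ## Part 1: star amalgams -/

/-- the basis element of the free group which moves the leaf `i` -/
noncomputable def zz {Q ι' : Type} [Group Q] (D : ι' → Subgroup Q) (i : ι') :
    FreeGroup (Σ i, Q ⧸ D i) ⋊[permAut (Σ i, Q ⧸ D i) Q] Q :=
  SemidirectProduct.inl (FreeGroup.of ⟨i, ((1 : Q) : Q ⧸ D i)⟩)

/-- **EMB** (about 200 lines; adapt `Pool.Agent.Y417.FJ.t_am`, which is the case of one leaf).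
A star amalgam embeds into `F(Σ Q ⧸ D i) ⋊ Q`.
PROOF. `Θ` exists by `starLift` (the basis element `⟨i, 1⟩` is fixed by `D i`, so `zz D i` commutes with
`inr q` for `q ∈ D i`). Call `x` of type `Alt i` if `x = l a` or `x = l a x'` with `l` in the leaf `i`, `l` not in
the range of `κ i`, `a` in the center, `x'` of type `Alt i'`, and `a` not in the range of `φ i` if
`i' = i`. By `star_ind` every element of the star is `a` or `a x` with `x` of type `Alt i` for some `i` (if
`l` times `a x'` is not reduced then `l`, or `a` and the product of `l a` with the first letter of `x'`, can be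
absorbed, as in `nf_mul_right`). For `x` of type `Alt i` the word of `(Θ x).left` begins with
`⟨j i, 1⟩` (positive) and is reduced: for `x = l a x'` it is `⟨j i, 1⟩ · ⟨j i, g l⟩⁻¹ · (f/g (l a)) • word x'`; here
`g l ∉ D (j i)`, and `⟨j i, g l⟩ ≠ ⟨j i', g l f a⟩` because `j` is injective and `f a ∉ D (j i)` if `i = i'`. So
`Θ (a x) ≠ 1`. -/
def S_EMB : Prop := ∀ (A ι : Type) [Group A] (L K : ι → Type) [∀ i, Group (L i)]
  [∀ i, Group (K i)] (φ : ∀ i, K i →* A) (κ : ∀ i, K i →* L i) (Q ι' : Type) [Group Q]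
  (D : ι' → Subgroup Q) (j : ι → ι') (f : A →* Q) (g : ∀ i, L i →* Q),
  (∀ i k, f (φ i k) = g i (κ i k)) → Function.Injective j → Function.Injective f →
  (∀ i, Function.Injective (g i)) → (∀ i k, f (φ i k) ∈ D (j i)) →
  (∀ i a, f a ∈ D (j i) → ∃ k, φ i k = a) → (∀ i l, g i l ∈ D (j i) → ∃ k, κ i k = l) →
  ∃ Θ : Star φ κ →* FreeGroup (Σ i, Q ⧸ D i) ⋊[permAut (Σ i, Q ⧸ D i) Q] Q,
    Function.Injective Θ ∧ (∀ a, Θ (starC φ κ a) = SemidirectProduct.inr (f a)) ∧
    ∀ i l, Θ (starL φ κ i l) = zz D (j i) * SemidirectProduct.inr (g i l) * (zz D (j i))⁻¹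

/-- **TT** (about 50 lines, from `S_EMB`). Star amalgams with a homomorphism to a group in `C` which is
injective on the center and on the leaves are in `C`.
PROOF. `S_EMB` with `ι' = ι`, `D i` the range of `(g i).comp (κ i)`; the target is in `C` by
`Pool.Agent.Y961.FJ.t_perm Pool.Agent.Y529.FJ.t_ext : S_PERM`. -/
def S_TT : Prop := ∀ (C : ∀ (G : Type) [Group G], Prop), ClosedE C →
  ∀ (A ι : Type) [Group A] (L K : ι → Type) [∀ i, Group (L i)]
  [∀ i, Group (K i)] (φ : ∀ i, K i →* A) (κ : ∀ i, K i →* L i) (Q : Type) [Group Q]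
  (f : A →* Q) (g : ∀ i, L i →* Q), (∀ i k, f (φ i k) = g i (κ i k)) →
  Function.Injective f → (∀ i, Function.Injective (g i)) → C Q → C (Star φ κ)

/-- **JJ** (about 60 lines, from `S_EMB`). Sub-stars: a homomorphism `α` of the centers and
homomorphisms `β i` from the leaves to leaves, with the same edge groups. The target star has a
homomorphism to a group `Q` which is injective on the center and on the leaves.
PROOF. Let `Θ'` be the embedding of the star of `φ' κ'` for `ι' = ι₂`, `j = id`, `D i' =` range of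
`(g' i').comp (κ' i')`; the composite of the given `Ψ` with `Θ'` agrees on the center and on the leaves with the
embedding `Θ` of `S_EMB` for the star of `φ κ`, `f = f' ∘ α`, `g i = g' (j i) ∘ β i`, the same `D` and `j`; by
`star_ext` they are equal. -/
def S_JJ : Prop := ∀ (A ι : Type) [Group A] (L K : ι → Type) [∀ i, Group (L i)]
  [∀ i, Group (K i)] (φ : ∀ i, K i →* A) (κ : ∀ i, K i →* L i)
  (A' ι' : Type) [Group A'] (L' K' : ι' → Type) [∀ i, Group (L' i)]
  [∀ i, Group (K' i)] (φ' : ∀ i, K' i →* A') (κ' : ∀ i, K' i →* L' i)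
  (Q : Type) [Group Q] (f' : A' →* Q) (g' : ∀ i, L' i →* Q),
  (∀ i k, f' (φ' i k) = g' i (κ' i k)) → Function.Injective f' →
  (∀ i, Function.Injective (g' i)) →
  ∀ (j : ι → ι') (α : A →* A') (β : ∀ i, L i →* L' (j i)) (Ψ : Star φ κ →* Star φ' κ'),
  Function.Injective j → Function.Injective α → (∀ i, Function.Injective (β i)) →
  (∀ i k, ∃ k', φ' (j i) k' = α (φ i k) ∧ κ' (j i) k' = β i (κ i k)) →
  (∀ i a, (∃ k', φ' (j i) k' = α a) → ∃ k, φ i k = a) →
  (∀ i l, (∃ k', κ' (j i) k' = β i l) → ∃ k, κ i k = l) →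
  (∀ a, Ψ (starC φ κ a) = starC φ' κ' (α a)) →
  (∀ i l, Ψ (starL φ κ i l) = starL φ' κ' (j i) (β i l)) → Function.Injective Ψ

/-! ## Part 2: towers and their covers -/

open Classical in
/-- the inclusion of the subgroup `K` into the subgroup `L` (trivial if `K` is not contained in `L`) -/
noncomputable def incl {G : Type} [Group G] (K L : Subgroup G) : K →* L :=
  if h : K ≤ L then Subgroup.inclusion h else 1

theorem incl_apply {G : Type} [Group G] {K L : Subgroup G} (h : K ≤ L) (k : K) :
    ((incl K L k : L) : G) = k := by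
  rw [incl, dif_pos h]
  rfl

theorem incl_eq {G : Type} [Group G] {K L : Subgroup G} (h : K ≤ L) :
    incl K L = Subgroup.inclusion h := by
  rw [incl, dif_pos h]

variable {X : Type}

/-- the section at `d ^ n` -/
def sd (d : X) : ℕ → T X → T X
  | 0, g => g
  | n + 1, g => sd d n (sec g d)

/-- the properties of the groups `P k` and `B k` which are used -/
structure Tower (d : X) (P B : ℕ → Subgroup (T X)) : Prop where
  P_le : ∀ k, P k ≤ P (k + 1)
  B_le : ∀ k, B k ≤ B (k + 1)
  B_le_P : ∀ k, B k ≤ P k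
  B_zero : B 0 = ⊥
  P_sup : ∀ k, P (k + 1) = P k ⊔ B (k + 1)
  P_sec : ∀ k, ∀ g ∈ P k, ∀ x, sec g x ∈ P k
  B_root : ∀ k, ∀ b ∈ B k, root b d = d
  B_sec : ∀ k, ∀ b ∈ B k, sec b d ∈ B k
  B_off : ∀ k, ∀ b ∈ B (k + 1), ∀ x, x ≠ d → sec b x ∈ P k
  fix : ∀ k, ∀ g ∈ P k, (∀ n, root (sd d n g) d = d) → ∃ n, sd d n g ∈ B k
  per : ∀ k, ∀ b ∈ B k, ∃ m, 0 < m ∧ sd d m b = b

/-- `Γ` with the recursion `ψ` is a cover of the group `Q` of tree automorphisms -/
structure Cov (Γ : Type) [Group Γ] (ψ : Γ →* Wr X Γ) (π : Γ →* T X) (Q : Subgroup (T X)) :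
    Prop where
  root_eq : ∀ γ, root (π γ) = (ψ γ).p
  sec_eq : ∀ γ x, sec (π γ) x = π ((ψ γ).s x)
  dies : ∀ γ, π γ = 1 → Dies ψ γ
  range_eq : π.range = Q

/-- the cover of `P (k + 1)`: the amalgam of `P k` and `B (k + 1)` over `B k` -/
abbrev Gam (P B : ℕ → Subgroup (T X)) (k : ℕ) : Type :=
  Star (fun _ : Unit => incl (B k) (P k)) (fun _ : Unit => incl (B k) (B (k + 1)))

/-- the inclusion of `P k` into the cover -/
noncomputable def gC (P B : ℕ → Subgroup (T X)) (k : ℕ) : P k →* Gam P B k :=
  starC (fun _ : Unit => incl (B k) (P k)) (fun _ : Unit => incl (B k) (B (k + 1)))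

/-- the inclusion of `B (k + 1)` into the cover -/
noncomputable def gL (P B : ℕ → Subgroup (T X)) (k : ℕ) : B (k + 1) →* Gam P B k :=
  starL (fun _ : Unit => incl (B k) (P k)) (fun _ : Unit => incl (B k) (B (k + 1))) ()

/-- the recursion `ψ` and the projection `π` of the cover of `P (k + 1)` -/
structure GamRec (d : X) (P B : ℕ → Subgroup (T X)) (k : ℕ)
    (ψ : Gam P B k →* Wr X (Gam P B k)) (π : Gam P B k →* T X) : Prop where
  cov : Cov (Gam P B k) ψ π (P (k + 1))
  piC : ∀ a : P k, π (gC P B k a) = a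
  piL : ∀ b : B (k + 1), π (gL P B k b) = b
  secC : ∀ (a a' : P k) (x : X), (a' : T X) = sec a x →
    (ψ (gC P B k a)).s x = gC P B k a'
  secL : ∀ b b' : B (k + 1), (b' : T X) = sec b d → (ψ (gL P B k b)).s d = gL P B k b'
  secO : ∀ (b : B (k + 1)) (a : P k) (x : X), x ≠ d → (a : T X) = sec b x →
    (ψ (gL P B k b)).s x = gC P B k a

/-- **REC** (about 220 lines). The recursion of the cover.
PROOF. `π` is `starLift` of the two inclusions, `ψ` is `starLift` of `a ↦ (x ↦ gC (sec a x), root a)` and
`b ↦ (x ↦ if x = d then gL (sec b d) else gC (sec b x), root b)` (classical). `root_eq`, `sec_eq` by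
`star_ind` (both sides are compatible with products). The range of `π` is `P k ⊔ B (k+1)`.
DIES. Define `inductive Rp : ℕ → Gam → Prop` by `Rp 0 (gC a)`,
`Rp n γ → Rp (n + 1) (gC a * gL b * γ)`. Every `γ` satisfies some `Rp n` (`star_ind`; `gC a' * (gC a * ..)`
merges, `gL b * γ = gC 1 * gL b * γ`). If `Rp n γ` then every section `(ψ γ).s x` satisfies `Rp n'`, `n' ≤ n`.
Claim: `Rp n γ`, `π γ = 1` imply `Dies ψ γ`. Induction on `n`. `n = 0`: `γ = gC a`, `a = π γ = 1`.
`n = 1`: `γ = gC a₀ * gL b * gC a₁`, `a₀ b a₁ = 1`, so `b ∈ P k`, and `b` and its sections `sd d n b` are in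
`B (k+1)`, so fix `d`; by `fix` some `sd d n b ∈ B k`; by `per`, `sd d (m t) b = b` for all `t`, and `B_sec`:
`b ∈ B k`; so `gL b = gC b` by `star_glue` and `γ = gC (a₀ b a₁) = 1`.
`n ≥ 2`: `γ = gC a₀ * gL b₁ * (gC a₁ * gL b₂ * γ'')`, `Rp (n - 2) γ''`. By `fix` there is an `m` with
`root (sd d m a₁) d ≠ d` or `sd d m a₁ ∈ B k`; induction on `m` (for all such `γ`). `m = 0`: if
`a₁ ∈ B k` then `gL b₁ * gC a₁ * gL b₂ = gL (b₁ a₁ b₂)` and `Rp (n - 1) γ`. If `root a₁ d ≠ d`, or for `m + 1`:
look at the section at `x`. Let `y = root γ'' x`, `z = root (a₁ b₂) y`. If `y ≠ d` or `z ≠ d` then the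
section satisfies `Rp n'` with `n' < n`, so it dies (`π` of it is `sec (π γ) x = 1`). If
`y = z = d` then `root a₁ d = d` and the section is
`gC _ * gL (sec b₁ d) * (gC (sec a₁ d) * gL (sec b₂ d) * section of γ'')`, with
`sd d m (sec a₁ d) = sd d (m+1) a₁`: it dies by the induction hypothesis for `m` (or it satisfies
`Rp n'`, `n' < n`, if the section of `γ''` is shorter). So all sections die, and `(ψ γ).p = root (π γ) = 1`. -/
def S_REC : Prop := ∀ (X : Type) (d : X) (P B : ℕ → Subgroup (T X)), Tower d P B →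
  ∀ k, ∃ ψ π, GamRec d P B k ψ π

/-! ## Part 3: layers -/

section layers

variable (P B : ℕ → Subgroup (T X)) {ι : Type}

/-- the leaves of the layers: `P (E i)` and `B (E i + 1)` -/
def Lf (E : ι → ℕ) (j : ι × Bool) : Subgroup (T X) := cond j.2 (B (E j.1 + 1)) (P (E j.1))

/-- the edge groups of the layers: `P (c i)` and `B (c i + 1)` -/
def Kf (c : ι → ℕ) (j : ι × Bool) : Subgroup (T X) := cond j.2 (B (c j.1 + 1)) (P (c j.1))

/-- the inclusions of the edge groups into the leaves -/
noncomputable def kap (c E : ι → ℕ) (j : ι × Bool) : Kf P B c j →* Lf P B E j :=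
  incl (Kf P B c j) (Lf P B E j)

/-- the star with center `P e` and the layers `(c i, E i)` -/
abbrev SP (e : ℕ) (c E : ι → ℕ) : Type :=
  Star (fun j : ι × Bool => incl (Kf P B c j) (P e)) (kap P B c E)

/-- the leaves of the layers and one more leaf `B (e + 1)` -/
def Lx (e : ℕ) (E : ι → ℕ) : Option (ι × Bool) → Subgroup (T X)
  | none => B (e + 1)
  | some j => Lf P B E j

/-- the edge groups of the layers and one more edge group `B m` -/
def Kx (m : ℕ) (c : ι → ℕ) : Option (ι × Bool) → Subgroup (T X)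
  | none => B m
  | some j => Kf P B c j

/-- the star with center `P e`, the layers `(c i, E i)` and one more leaf `B (e + 1)` attached along
`B m` -/
abbrev SPx (e m : ℕ) (c E : ι → ℕ) : Type :=
  Star (fun j : Option (ι × Bool) => incl (Kx P B m c j) (P e))
    (fun j => incl (Kx P B m c j) (Lx P B e E j))

/-- the homomorphisms `φ` from the edge groups of the layers to the cover `Γ` are compatible with the
recursions -/
structure AttRec (d : X) (c : ι → ℕ) (Γ : Type) [Group Γ] (ψ : Γ →* Wr X Γ) (π : Γ →* T X)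
    (φ : ∀ j : ι × Bool, Kf P B c j →* Γ) : Prop where
  pi : ∀ (j : ι × Bool) (k : Kf P B c j), π (φ j k) = k
  secF : ∀ (i : ι) (k k' : Kf P B c (i, false)) (x : X), (k' : T X) = sec k x →
    (ψ (φ (i, false) k)).s x = φ (i, false) k'
  secT : ∀ (i : ι) (k k' : Kf P B c (i, true)), (k' : T X) = sec k d →
    (ψ (φ (i, true) k)).s d = φ (i, true) k'
  secO : ∀ (i : ι) (k : Kf P B c (i, true)) (k' : Kf P B c (i, false)) (x : X), x ≠ d →
    (k' : T X) = sec k x → (ψ (φ (i, true) k)).s x = φ (i, false) k'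

/-- **LIM** (about 250 lines). Approximation of the center (uses `S_TT`).
PROOF. Put `G n = Γ ⧸ Kn ψ n` (`Pool.Agent.Y331.SS.Kn`), `φ n j = (mk' _).comp (φ j)`,
`St n = Star (φ n) (kap P B c E)`. Let `π n : G n →* T X` be induced by `π` (elements of `Kn` die,
`dies_iff`, and die elements have `π = 1` by induction). The recursion `G (n+1) → Wr X (G n)` induced by
`ψ` is injective. (a) There is a homomorphism `ρ n : St (n+1) →* Wr X (St n)`: on the center the recursion
composed with `starC`, on the leaf `(i, false)` `g ↦ (x ↦ starL (i, false) (sec g x), root g)`, on the leaf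
`(i, true)` `b ↦ (x ↦ if x = d then starL (i, true) (sec b d) else starL (i, false) (sec b x), root b)` (uses
`P_sec`, `B_root`, `B_sec`, `B_off`, `c i ≤ E i`); compatible on the edge groups by `AttRec` and
`star_glue`. It is injective on the leaves: `St n` has a homomorphism to `T X` (`π n` and the inclusions),
so `starL` is injective, and `g` is determined by its sections and its root (`T_ext`). (b) By induction on
`n` the map `G n → St n` is injective (`n = 0`: hypothesis, `Kn ψ 0 = ⊥`; `n + 1`: compose with `ρ n`) and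
`C (St n)` (`n = 0`: hypothesis, `n + 1`: `S_TT` with `Q = Wr X (St n)`, which is in `C` by
`Pool.Agent.Y812.SS.t_wr`). (c) `ClosedE.base.colim` over `ℕ` with the homomorphisms `St n → St m`, `n ≤ m` and
`St n → SP P B e c E` given by the projections `G n → G m`, `G n → P e` (`π` has range `P e`) and the
identities of the leaves. Surjectivity: `star_ind`. Kernel: let `M` be the normal subgroup of the
elements of `St n` which become `1` in some `St m`; the elements of `G n` which are `1` in `P e` are in
`M` (they come from `γ` with `π γ = 1`, so `γ` dies, `γ ∈ Kn ψ m` for some `m`). So there is a homomorphism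
`SP P B e c E →* St n ⧸ M` (on the center: the map `Γ → St n ⧸ M` kills the kernel of `π`), the composite
`St n → SP → St n ⧸ M` is the projection, and the kernel of `St n → SP` is contained in `M`. -/
def S_LIM : Prop := S_TT → ∀ (C : ∀ (G : Type) [Group G], Prop), ClosedE C → ∀ (X : Type),
  Finite X →
  ∀ (d : X) (P B : ℕ → Subgroup (T X)), Tower d P B → ∀ (ι : Type) (c E : ι → ℕ) (e : ℕ),
  (∀ i, c i ≤ E i) → (∀ i, c i < e) →
  ∀ (Γ : Type) [Group Γ] (ψ : Γ →* Wr X Γ) (π : Γ →* T X), Cov Γ ψ π (P e) →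
  ∀ φ : (∀ j : ι × Bool, Kf P B c j →* Γ), AttRec P B d c Γ ψ π φ →
  Function.Injective (starC φ (kap P B c E)) → C (Star φ (kap P B c E)) → C (SP P B e c E)

/-- **A** (about 120 lines). From the center `P e` with one more leaf to the center `P (e + 1)`.
PROOF. Let `Γ = Gam P B e`, `ψ, π` from `S_REC`, `φ j = (gC P B e).comp (incl (Kf P B c j) (P e))`
(`Kf ≤ P e` because `c i < e`). There is a homomorphism
`Star φ (kap P B c E) →* SPx P B e e c E` (on the center: `gC ↦ starC`, `gL ↦ starL none`; on the leaves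
`starL j ↦ starL (some j)`). It is injective on the center by `S_JJ` (`ι = Unit`, `j = fun _ => none`,
`α = id`, `β = id`, `Q = T X`), and on the leaves (`SPx → T X`), so `S_TT` gives `C (Star φ kap)`, and the
center is injective. `AttRec` follows from `GamRec`. Apply `S_LIM` with `e + 1`. -/
def S_A : Prop := S_REC → S_TT → S_JJ → S_LIM →
  ∀ (C : ∀ (G : Type) [Group G], Prop), ClosedE C → ∀ (X : Type), Finite X →
  ∀ (d : X) (P B : ℕ → Subgroup (T X)), Tower d P B → ∀ (ι : Type) (c E : ι → ℕ) (e : ℕ),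
  (∀ i, c i ≤ E i) → (∀ i, c i < e) → C (SPx P B e e c E) → C (SP P B (e + 1) c E)

/-- the old layers and a new layer with the index `m` -/
def addl (c : ι → ℕ) (m : ℕ) : Option ι → ℕ
  | none => m
  | some i => c i

/-- **B** (about 150 lines). Elimination of a layer.
PROOF. Let `Γ = Gam P B m`, `ψ, π` from `S_REC`; `φ` on the edge groups of the layers of `addl c m`,
`addl E F`: `φ (none, false) = gC P B m` (edge group `P m`), `φ (none, true) = gL P B m` (edge group
`B (m + 1)`), `φ (some i, _) = (gC P B m).comp (incl _ (P m))`. Homomorphism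
`Star φ (kap P B (addl c m) (addl E F)) →* SPx P B F m c E`: on the center `gC a ↦ starC a` (`P m ≤ P F`),
`gL b ↦ starL none b` (`B (m+1) ≤ B (F+1)`), on the leaves: `(none, false)`, which is `P F`, ↦ `starC`,
`(none, true)`, which is `B (F+1)`, ↦ `starL none`, `(some i, t) ↦ starL (some (i, t))`. Injective on the
center by `S_JJ` (`Unit`, `none`, the inclusions `P m ≤ P F`, `B (m+1) ≤ B (F+1)`, edge groups `B m`),
on the leaves because of `SPx → T X`. So `S_TT` and `S_LIM` (with `e = m + 1`) apply. -/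
def S_B : Prop := S_REC → S_TT → S_JJ → S_LIM →
  ∀ (C : ∀ (G : Type) [Group G], Prop), ClosedE C → ∀ (X : Type), Finite X →
  ∀ (d : X) (P B : ℕ → Subgroup (T X)), Tower d P B → ∀ (ι : Type) (c E : ι → ℕ) (m F : ℕ),
  (∀ i, c i ≤ E i) → (∀ i, c i < m) → m ≤ F → C (SPx P B F m c E) →
  C (SP P B (m + 1) (addl c m) (addl E F))

/-- **FOLD** (about 70 lines). The extra leaf `B (e + 1)` attached along `B (c i₀ + 1)` is folded into the
leaf `B (E i₀ + 1)` of the layer `i₀`.
PROOF. `S_TT` with `Q = SP P B e c E`: `starC`, `starL j` on `some j`, and on `none` the inclusion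
`B (e+1) ≤ B (E i₀ + 1)` followed by `starL (i₀, true)`. Injective because of `SP → T X`. -/
def S_FOLD : Prop := S_TT → ∀ (C : ∀ (G : Type) [Group G], Prop), ClosedE C → ∀ (X : Type),
  ∀ (d : X) (P B : ℕ → Subgroup (T X)), Tower d P B → ∀ (ι : Type) (c E : ι → ℕ) (e : ℕ) (i₀ : ι),
  (∀ i, c i ≤ E i) → (∀ i, c i < e) → e ≤ E i₀ → C (SP P B e c E) →
  C (SPx P B e (c i₀ + 1) c E)

/-- **SUB** (about 70 lines). The extra leaf is part of a layer `(m, e)`.
PROOF. `S_TT` with `Q = SP P B e (addl c m) (addl E e)`: `starC`, `starL (some i, t)` on `some (i, t)`, and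
`starL (none, true)` on `none` (the leaf `B (e + 1)` attached along `B (m + 1)`). -/
def S_SUB : Prop := S_TT → ∀ (C : ∀ (G : Type) [Group G], Prop), ClosedE C → ∀ (X : Type),
  ∀ (d : X) (P B : ℕ → Subgroup (T X)), Tower d P B → ∀ (ι : Type) (c E : ι → ℕ) (e m : ℕ),
  (∀ i, c i ≤ E i) → (∀ i, c i < e) → m < e → C (SP P B e (addl c m) (addl E e)) →
  C (SPx P B e (m + 1) c E)

/-- **INIT** (about 60 lines). No layers, `m = 0` (`B 0 = ⊥`): `S_TT` with `Q = P e × B (e + 1)`. And a star
without leaves is its center. -/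
def S_INIT : Prop := S_TT → ∀ (C : ∀ (G : Type) [Group G], Prop), ClosedE C → ∀ (X : Type),
  ∀ (d : X) (P B : ℕ → Subgroup (T X)), Tower d P B → ∀ (ι : Type) [IsEmpty ι] (c E : ι → ℕ)
  (e : ℕ), (C (P e) → C (B (e + 1)) → C (SPx P B e 0 c E)) ∧ (C (P e) ↔ C (SP P B e c E))

/-- **MAIN** (about 120 lines). The double induction.
PROOF. `R F` := for all layers `c, E` on a type `ι` and all `i₀` with `∀ i, c i ≤ c i₀`, `E i₀ = F`: if
`C (SP (c i₀ + 1) c E)` then `C (SP e c E)` for all `c i₀ + 1 ≤ e ≤ F`. STEP: let `c i < c₀` for all `i`,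
`c₀ ≤ e`, `R e`, `C (SP e c E)`, `C (SPx e c₀ c E)`. Then `C (SP (e + 1) c E)`. Proof of STEP: by induction on
`m`, `c₀ ≤ m ≤ e`: `C (SPx e m c E)`. From `m` to `m + 1 ≤ e`: `S_B` (with `F = e`) gives
`C (SP (m+1) (addl c m) (addl E e))`, `R e` for the layers `addl` and `i₀ = none` gives
`C (SP e (addl c m) (addl E e))`, and `S_SUB` gives `C (SPx e (m+1) c E)`. For `m = e` apply `S_A`.
`R F` by strong induction on `F`, and for given layers by induction on `e`: STEP with `c₀ = c i₀ + 1`,
the start `C (SPx e c₀ c E)` is `S_FOLD` (`e ≤ F = E i₀`), `R e` holds since `e < F`. Finally `C (P e)` by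
induction on `e`: STEP for `ι = Empty`, `c₀ = 0`, with the start from `S_INIT`. -/
def S_MAIN : Prop := S_A → S_B → S_FOLD → S_SUB → S_INIT → S_REC → S_TT → S_JJ → S_LIM →
  ∀ (C : ∀ (G : Type) [Group G], Prop), ClosedE C → ∀ (X : Type), Finite X →
  ∀ (d : X) (P B : ℕ → Subgroup (T X)), Tower d P B → C (P 0) →
  (∀ k, C (P k) → C (B (k + 1))) → ∀ k, C (P k)

end layers

end Pool.Agent.T2h30.PA
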