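import Pool.Agent.T2h30.PA.Stm

/-!
# Project PA (helper30), second part: the tower of the automata of polynomial activity
-/

set_option autoImplicit false

namespace Pool.Agent.T2h30.PA

open Pool.Agent.Y110.FJ Pool.Agent.Y462.SS

variable {X : Type}

/-- the shift of a ray -/
def sft (ξ : ℕ → X) : ℕ → X := fun n => ξ (n + 1)

open Classical in
/-- the recursion of the automorphisms which move the ray `d d d ...` -/
noncomputable def crec (d : X) : FreeGroup (ℕ → X) →* Wr X (FreeGroup (ℕ → X)) :=
  FreeGroup.lift fun ξ =>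
    ⟨fun x => if x = d then FreeGroup.of (sft ξ) else 1, Equiv.swap d (ξ 0)⟩

/-- the automorphism which moves the ray `d d d ...` to the ray `ξ` and has trivial sections off the
ray `d d d ...` -/
noncomputable def cray (d : X) (ξ : ℕ → X) : T X := tau (crec d) (FreeGroup.of ξ)

open Classical in
theorem root_cray (d : X) (ξ : ℕ → X) : root (cray d ξ) = Equiv.swap d (ξ 0) := by
  rw [cray, root_tau, crec, FreeGroup.lift_apply_of]

open Classical in
theorem sec_cray (d : X) (ξ : ℕ → X) : sec (cray d ξ) d = cray d (sft ξ) := by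
  rw [cray, sec_tau, crec, FreeGroup.lift_apply_of]
  change tau _ (if d = d then FreeGroup.of (sft ξ) else 1) = _
  rw [if_pos rfl]
  rfl

open Classical in
theorem sec_cray_ne (d : X) (ξ : ℕ → X) (x : X) (h : x ≠ d) : sec (cray d ξ) x = 1 := by
  rw [cray, sec_tau, crec, FreeGroup.lift_apply_of]
  change tau _ (if x = d then FreeGroup.of (sft ξ) else 1) = _
  rw [if_neg h, map_one]

open Classical in
theorem cray_const (d : X) : cray d (fun _ => d) = 1 := by
  have key : ∀ w : List X, (cray d (fun _ => d)).1 w = w := by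
    intro w
    induction w with
    | nil => exact nil_eq _
    | cons x w ih =>
      rw [cons_eq, root_cray, Equiv.swap_self]
      by_cases h : x = d
      · subst h
        rw [sec_cray]
        change x :: (cray x (fun _ => x)).1 w = _
        rw [ih]
      · rw [sec_cray_ne d _ x h]
        rfl
  apply Subtype.ext
  apply Equiv.ext
  exact key

/-- eventually periodic rays -/
def EP (ξ : ℕ → X) : Prop := ∃ N m : ℕ, 0 < m ∧ ∀ n, N ≤ n → ξ (n + m) = ξ n

/-- `P 0`: generated by the automorphisms of finite depth and the automorphisms which move the ray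
`d d d ...` to an eventually periodic ray -/
def Pz (d : X) : Subgroup (T X) :=
  Subgroup.closure ({g | ∃ k, IsDep k g} ∪ {g | ∃ ξ, EP ξ ∧ g = cray d ξ})

theorem sd_mul (d : X) (n : ℕ) : ∀ a b : T X, (∀ m, root (sd d m b) d = d) →
    sd d n (a * b) = sd d n a * sd d n b := by
  induction n with
  | zero => intro a b _; rfl
  | succ n ih =>
    intro a b h
    have h0 : root b d = d := h 0
    show sd d n (sec (a * b) d) = _
    rw [sec_mul, h0, ih _ _ (fun m => h (m + 1))]
    rfl

theorem sd_one (d : X) (n : ℕ) : sd d n (1 : T X) = 1 := by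
  induction n with
  | zero => rfl
  | succ n ih =>
    show sd d n (sec 1 d) = 1
    rw [sec_one, ih]

theorem sd_add (d : X) (m n : ℕ) : ∀ g : T X, sd d (m + n) g = sd d n (sd d m g) := by
  induction m with
  | zero => intro g; rw [Nat.zero_add]; rfl
  | succ m ih =>
    intro g
    rw [Nat.add_right_comm]
    exact ih (sec g d)

theorem sd_succ' (d : X) (n : ℕ) (g : T X) : sd d (n + 1) g = sec (sd d n g) d := sd_add d n 1 g

theorem sd_inv (d : X) (n : ℕ) (b : T X) (h : ∀ m, root (sd d m b) d = d) :
    sd d n b⁻¹ = (sd d n b)⁻¹ := by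
  have h1 := sd_mul d n b⁻¹ b h
  rw [inv_mul_cancel, sd_one] at h1
  exact eq_inv_of_mul_eq_one_left h1.symm

theorem sd_period (d : X) (m : ℕ) (b : T X) (h : sd d m b = b) (t : ℕ) : sd d (m * t) b = b := by
  induction t with
  | zero => rfl
  | succ t ih => rw [Nat.mul_succ, sd_add, ih, h]

theorem root_inv_fix (b : T X) (d : X) (h : root b d = d) : root b⁻¹ d = d := by
  rw [root_inv, Equiv.Perm.inv_eq_iff_eq, h]

/-- the group of the automorphisms which fix the ray `d d d ...`, are periodic along it and have their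
sections off the ray in `Q` -/
def Bs (d : X) (Q : Subgroup (T X)) : Subgroup (T X) where
  carrier := {b | (∀ n, root (sd d n b) d = d) ∧ (∀ n x, x ≠ d → sec (sd d n b) x ∈ Q) ∧
    ∃ m, 0 < m ∧ sd d m b = b}
  one_mem' := by
    refine ⟨fun n => ?_, fun n x _ => ?_, 1, one_pos, sd_one d 1⟩
    · rw [sd_one, root_one]
      rfl
    · rw [sd_one, sec_one]
      exact one_mem Q
  mul_mem' := by
    rintro a b ⟨ha, ha', p, hp, hap⟩ ⟨hb, hb', q, hq, hbq⟩
    refine ⟨fun n => ?_, fun n x hx => ?_, p * q, Nat.mul_pos hp hq, ?_⟩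
    · rw [sd_mul d n a b hb, root_mul, Equiv.Perm.mul_apply, hb, ha]
    · rw [sd_mul d n a b hb, sec_mul]
      refine Q.mul_mem (ha' n _ fun h => hx ?_) (hb' n x hx)
      exact (root (sd d n b)).injective (h.trans (hb n).symm)
    · rw [sd_mul d _ a b hb, sd_period d p a hap, Nat.mul_comm, sd_period d q b hbq]
  inv_mem' := by
    rintro a ⟨ha, ha', p, hp, hap⟩
    refine ⟨fun n => ?_, fun n x hx => ?_, p, hp, ?_⟩
    · rw [sd_inv d n a ha]
      exact root_inv_fix _ d (ha n)
    · rw [sd_inv d n a ha, sec_inv]
      refine Q.inv_mem (ha' n _ fun h => hx ?_)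
      rw [Equiv.Perm.inv_eq_iff_eq, ha n] at h
      exact h
    · rw [sd_inv d p a ha, hap]

/-- the groups `P k` -/
def Pk (d : X) : ℕ → Subgroup (T X)
  | 0 => Pz d
  | k + 1 => Pk d k ⊔ Bs d (Pk d k)

/-- the groups `B k` -/
def Bk (d : X) : ℕ → Subgroup (T X)
  | 0 => ⊥
  | k + 1 => Bs d (Pk d k)

/-- the section of `g` below the prefix of length `n` of the ray `ξ` -/
def secr : ℕ → (ℕ → X) → T X → T X
  | 0, _, g => g
  | n + 1, ξ, g => secr n (sft ξ) (sec g (ξ 0))

/-- the image of the ray `ξ` under `g` -/
def gray (g : T X) (ξ : ℕ → X) : ℕ → X := fun n => root (secr n ξ g) (ξ n)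

/-- the iterated shift -/
def sftn (n : ℕ) (ξ : ℕ → X) : ℕ → X := fun m => ξ (m + n)

/-- **GERM** (about 200 lines). The germs of the elements of `P k` at eventually periodic rays.
PROOF. For fixed `k` let `Good g` be the claim for all EP rays `ξ`. `Good` is closed under products and
inverses: `secr n ξ (g * h) = secr n (gray h ξ) g * secr n ξ h`, `gray (g * h) ξ = gray g (gray h ξ)`; if
the equation holds for `n` it holds for all `n' ≥ n` (take sections at `ξ n`: `b ∈ Bk d k` fixes `d`, and
`sec (cray η) d = cray (sft η)`), so one `n` can be used for `g` and `h`, and the factors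
`(cray (sftn n (gray h ξ)))⁻¹ * cray (sftn n (gray h ξ))` cancel (`b ∈ Bk d k` is closed under products). So by
`Subgroup.closure_induction` it is enough to treat generators. Induction on `k`. `k = 0`: `g` of finite
depth: `secr n ξ g = 1` for large `n`, and then `gray g ξ m = ξ m` for `m ≥ n`, `b = 1`. `g = cray d ζ`, `EP ζ`: if
`ξ m = d` for all `m`: `n = 0`, `b = 1`, `gray g ξ = ζ` and `cray d (fun _ => d) = 1` (`cray_const`). Otherwise let
`m` be minimal with `ξ m ≠ d`: `secr (m + 1) ξ g = 1`. `k + 1`: elements of `Pk d k`: `Bk d k ≤ Bk d (k + 1)`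
(by induction on `k`: `Bs` is monotone). `b ∈ Bs d (Pk d k)`: if `ξ m = d` for all `m`: `n = 0`,
`secr 0 ξ b = b`, `gray b ξ = ξ`. Otherwise with `m` minimal such that `ξ m ≠ d`, `secr m ξ b = sd d m b`,
`secr (m + 1) ξ b = sec (sd d m b) (ξ m) ∈ Pk d k`, and the case `k` applies to it and to the ray
`sftn (m + 1) ξ`. -/
def S_GERM : Prop := ∀ (X : Type) (d : X) (k : ℕ), ∀ g ∈ Pk d k, ∀ ξ : ℕ → X, EP ξ →
  EP (gray g ξ) ∧ ∃ n : ℕ, ∃ b ∈ Bk d k,
    secr n ξ g = cray d (sftn n (gray g ξ)) * b * (cray d (sftn n ξ))⁻¹

/-- **TOW** (about 120 lines). The groups `Pk`, `Bk` form a tower.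
PROOF. `B_le`, `B_le_P`: induction (`Bs d` is monotone in `Q`; for `B 1`, `B 0 = ⊥`). `P_sec`: closure
induction (`sec_mul`, `sec_inv`); sections of elements of finite depth have finite depth, `sec_cray`
(`sft ξ` is EP) and `sec_cray_ne`; for `b ∈ Bs d (Pk d k)`: `sec b d ∈ Bs d (Pk d k)` (`sd_succ'`, `sd_add`) and
`sec b x ∈ Pk d k`. `fix`: `S_GERM` for the constant ray `ξ = d d d ...`: `secr n ξ g = sd d n g`,
`gray g ξ = ξ`, `cray_const`. `per` for `k = 0`: `b = 1`. -/
def S_TOW : Prop := S_GERM → ∀ (X : Type) (d : X), Tower d (Pk d) (Bk d)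

/-- **LV** (about 150 lines). `Pk d k` contains the automorphisms with all sections in `Pk d k`.
PROOF. Let `dl x h` be the automorphism with trivial root, section `h` at `x` and trivial sections at the
other letters (construct it, e.g. with `toWr`: define the permutation of the words; or prove that
`toWr X` is surjective). `dl x` is a homomorphism, and every `g` with sections `g_x` is the product of a
permutation of the first letter (depth 1) and of the `dl x g_x` (`X` finite; they commute). So it is
enough that `dl x h ∈ Pk d k` for `h` in a generating set of `Pk d k`, and (conjugation by the transposition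
of `x` and `d`, depth 1) for `x = d`. `k = 0`: `dl d h` has depth `j + 1` if `h` has depth `j`;
`dl d (cray d ξ) = cray d (d ξ)` (`d ξ` is EP). `k + 1`: `h ∈ Pk d k` by induction on `k`;
`h = b ∈ Bs d (Pk d k)`, `sd d m b = b`, `m ≥ 1`: `b' = sd d (m - 1) b ∈ Bs d (Pk d k)`, `sec b' d = b`, and
`b'⁻¹ * dl d b` has all its sections in `Pk d k` (at `d` it is `1`), so it is in `Pk d k` by the induction
hypothesis. -/
def S_LV : Prop := ∀ (X : Type), Finite X → ∀ (d : X) (k : ℕ) (g : T X),
  (∀ x, sec g x ∈ Pk d k) → g ∈ Pk d k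

/-- **PZ** (about 120 lines). `P 0` is in `C`.
PROOF. `Pool.Agent.Results.MP_490288_al.BoundedAutomata.result` with `hC.base`, `G = Pz d`, `f` the
inclusion into `Equiv.Perm (List X)`, `S` the generators; they are `IsBdd`: elements of depth `k` with
`R = ∅`; `cray d ξ` with `R = {fun _ => d}`, `k = 0`: below a word `v` which is not `d d ... d` it acts
trivially (induction on `v`). -/
def S_PZ : Prop := ∀ (C : ∀ (G : Type) [Group G], Prop), ClosedE C → ∀ (X : Type), Finite X →
  ∀ d : X, C (Pz d)

/-- **BC** (about 120 lines).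
PROOF. `Bs d Q` is the increasing union of the subgroups of the `b` with `sd d (n !) b = b`
(`Pool.Agent.Y430.SS.t_union`, `sd_period`), and such a subgroup embeds into
`Fin (n !) → Wr X Q`, `b ↦ (i ↦ (x ↦ if x = d then 1 else sec (sd d i b) x, root (sd d i b)))` (homomorphism by
`sd_mul`; injective: if all these data agree for `b` and `b'` then they agree for all `i` by periodicity,
and `b w = b' w` for all words by induction on `w` for all `sd d i b`, `sd d i b'`). Finite powers:
`Pool.Agent.Y812.SS.C_pow`, `t_wr`. -/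
def S_BC : Prop := ∀ (C : ∀ (G : Type) [Group G], Prop), ClosedE C → ∀ (X : Type), Finite X →
  ∀ (d : X) (Q : Subgroup (T X)), C Q → C (Bs d Q)

/-! ## Automata of polynomial activity -/

/-- the section of `g` at the word `v` -/
def secw : List X → T X → T X
  | [], g => g
  | x :: v, g => secw v (sec g x)

/-- finitely many sections -/
def FinState (g : T X) : Prop := {h | ∃ v, h = secw v g}.Finite

/-- the number of the nontrivial sections of level `n` is polynomially bounded -/
def PolyAct (g : T X) : Prop := ∃ a k : ℕ, ∀ n : ℕ,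
  {v : List X | v.length = n ∧ secw v g ≠ 1}.ncard ≤ a * (n + 1) ^ k

/-- **EXPO** (about 120 lines). No state `≠ 1` returns along two incomparable words.
PROOF. Let `q = secw u g ≠ 1`, `secw v q = q = secw v' q`, `v, v'` not prefixes of each other. Then `v v'` and
`v' v` are different words of the same length `l > 0` with `secw (v v') q = q = secw (v' v) q`; so for each
`t` the `2 ^ t` products of `t` of them give different words `w` of length `l t` with
`secw (u w) g = q ≠ 1`: the activity of `g` at level `|u| + l t` is at least `2 ^ t`, contradiction for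
large `t`. -/
def S_EXPO : Prop := ∀ (X : Type), Finite X → ∀ g : T X, PolyAct g → ∀ u : List X,
  secw u g ≠ 1 → ∀ v v' : List X, secw v (secw u g) = secw u g → secw v' (secw u g) = secw u g →
    v <+: v' ∨ v' <+: v

/-- **POLY** (about 220 lines). Finite-state automorphisms of polynomial activity are in some `Pk d k`.
PROOF. Strong induction on the number of states (`{h | ∃ v, h = secw v q}`, finite) of `q = secw u g`.
`q = 1`: clear. If `q ∉ States (sec q x)` for all `x`: the sections have fewer states, so they are in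
some `Pk d k` (one `k` for all `x`, `Pk` is increasing), `S_LV`. Otherwise `secw v q = q` for some `v ≠ []`;
let `v` be such a word of minimal length `l`. Let `ξ = v v v ...`. For `i` and `y ≠ ξ i` the state
`r = sec (secr i ξ q) y` does not have `q` as a state (`secr i ξ q = secw (v_0..v_{i-1}) q`; if
`secw w r = q` then `v_0..v_{i-1} y w` and `v v ... v` (long) are return words, both extend or are comparable
only if `y = ξ i`: `S_EXPO`), so it has fewer states than `q` (all its states are states of `q`), so it
is in some `Pk d k`, with the same `k` for all `i < l`, `y`. Let `η = gray q ξ`; `η` is periodic with period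
`l` since `secr l ξ q = q`. `b = (cray d η)⁻¹ * q * cray d ξ` satisfies
`sd d i b = (cray d (sftn i η))⁻¹ * secr i ξ q * cray d (sftn i ξ)`, it fixes the ray `d d d ...`,
`sd d l b = b`, and its section at `y ≠ d` of `sd d i b` is the section of `secr i ξ q` at
`swap d (ξ i) y ≠ ξ i`. So `b ∈ Bs d (Pk d k) ≤ Pk d (k + 1)`, and `cray d ξ, cray d η ∈ Pz d`. -/
def S_POLY : Prop := S_EXPO → S_LV → ∀ (X : Type), Finite X → ∀ (d : X) (g : T X),
  FinState g → PolyAct g → ∃ k, g ∈ Pk d k

/-- the number of words of length `n` below which `g` acts nontrivially is polynomially bounded -/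
def PolyActivity (g : Equiv.Perm (List X)) : Prop :=
  ∃ a k : ℕ, ∀ n : ℕ, {v : List X | v.length = n ∧ ∃ w, g (v ++ w) ≠ g v ++ w}.ncard ≤
    a * (n + 1) ^ k

/-- **TRA** (about 60 lines). Translation to `T X`.
PROOF. `g (v ++ w) = g v ++ (secw v g) w` by induction on `v` (`cons_eq`). So `secw v g` as a function is in
`Sections g`, and `secw v g ≠ 1` iff `g (v ++ w) ≠ g v ++ w` for some `w`. -/
def S_TRA : Prop := ∀ (X : Type) (g : T X), ((Sections g.1).Finite → FinState g) ∧
  (PolyActivity g.1 → PolyAct g)

/-- **FIN** (about 100 lines). The final theorem.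
PROOF. If `X` is empty then `G` is trivial (`List X` has one element). Otherwise let `d : X`. `C (Pk d k)` for
all `k` by `S_MAIN` with `S_TOW`, `S_PZ`, `S_BC`. All elements of `G` are mapped into `T X`; `G` is the
increasing union of the preimages of `Pk d k` (the union is a subgroup which contains the generators
by `S_POLY`, `S_TRA`); use `Pool.Agent.Y430.SS.t_union` and `of_injective`. -/
def S_FIN : Prop := (∀ (C : ∀ (G : Type) [Group G], Prop), ClosedE C → ∀ (X : Type), Finite X →
    ∀ (d : X) (P B : ℕ → Subgroup (T X)), Tower d P B → C (P 0) →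
    (∀ k, C (P k) → C (B (k + 1))) → ∀ k, C (P k)) →
  (∀ (X : Type) (d : X), Tower d (Pk d) (Bk d)) → S_PZ → S_BC →
  (∀ (X : Type), Finite X → ∀ (d : X) (g : T X), FinState g → PolyAct g → ∃ k, g ∈ Pk d k) →
  S_TRA → ∀ (C : ∀ (G : Type) [Group G], Prop), ClosedE C → ∀ (X : Type), Finite X →
  ∀ (G : Type) [Group G] (f : G →* Equiv.Perm (List X)), Function.Injective f →
  ∀ S : Set G, Subgroup.closure S = ⊤ → (∀ s ∈ S, IsTree (f s)) →
  (∀ s ∈ S, (Sections (f s)).Finite) → (∀ s ∈ S, PolyActivity (f s)) → C G

end Pool.Agent.T2h30.PA
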