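import Pool.Agent.T2h30.PA.Stm

/-!
# A star amalgam embeds into `F(Σ Q ⧸ D i) ⋊ Q` (project PA, part EMB)
-/

set_option autoImplicit false

namespace Pool.Agent.T2h30.PA.EMB

open Pool.Agent.Y110.FJ Pool.Agent.T2h30.PA

section words

variable {X P : Type} [Group P] [MulAction P X]

theorem permAut_mk (p : P) (L : List (X × Bool)) :
    permAut X P p (FreeGroup.mk L) = FreeGroup.mk (L.map fun q => (p • q.1, q.2)) := by
  show FreeGroup.map (MulAction.toPerm p) (FreeGroup.mk L) = _
  rw [FreeGroup.map.mk]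
  rfl

theorem reduced_map (p : P) (L : List (X × Bool)) (h : FreeGroup.IsReduced L) :
    FreeGroup.IsReduced (L.map fun q => (p • q.1, q.2)) := by
  unfold FreeGroup.IsReduced at *
  rw [List.isChain_map]
  refine List.IsChain.imp ?_ h
  intro a b hab h1
  exact hab (MulAction.injective p h1)

end words

section alt

variable {A : Type} [Group A] {ι : Type} {L K : ι → Type} [∀ i, Group (L i)] [∀ i, Group (K i)]
  (φ : ∀ i, K i →* A) (κ : ∀ i, K i →* L i)

/-- alternating products which begin with an element of the leaf `i` outside of the edge group -/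
inductive Alt : ι → Star φ κ → Prop
  | base (i : ι) (l : L i) (a : A) : (∀ k, κ i k ≠ l) → Alt i (starL φ κ i l * starC φ κ a)
  | step (i i' : ι) (l : L i) (a : A) (x : Star φ κ) : (∀ k, κ i k ≠ l) →
      (i' = i → ∀ k, φ i k ≠ a) → Alt i' x → Alt i (starL φ κ i l * starC φ κ a * x)

/-- the normal form -/
def NF (x : Star φ κ) : Prop :=
  (∃ a, x = starC φ κ a) ∨ ∃ a i h, Alt φ κ i h ∧ x = starC φ κ a * h

theorem nf_C (a : A) (x : Star φ κ) (hx : NF φ κ x) : NF φ κ (starC φ κ a * x) := by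
  rcases hx with ⟨a', rfl⟩ | ⟨a', i, h, hh, rfl⟩
  · exact Or.inl ⟨a * a', by rw [map_mul]⟩
  · exact Or.inr ⟨a * a', i, h, hh, by rw [map_mul, mul_assoc]⟩

theorem alt_mul (i : ι) (m : L i) (h : Star φ κ) (hh : Alt φ κ i h) :
    NF φ κ (starL φ κ i m * h) := by
  cases hh with
  | base _ l a hl =>
    by_cases hk : ∃ k, κ i k = m * l
    · obtain ⟨k, hk⟩ := hk
      refine Or.inl ⟨φ i k * a, ?_⟩
      rw [map_mul, star_glue, hk, map_mul, mul_assoc]
    · push Not at hk
      refine Or.inr ⟨1, i, _, Alt.base i (m * l) a hk, ?_⟩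
      rw [map_one, one_mul, map_mul, mul_assoc]
  | step _ i' l a x hl ha hx =>
    by_cases hk : ∃ k, κ i k = m * l
    · obtain ⟨k, hk⟩ := hk
      refine Or.inr ⟨φ i k * a, i', x, hx, ?_⟩
      rw [map_mul, star_glue, hk, map_mul]
      simp only [mul_assoc]
    · push Not at hk
      refine Or.inr ⟨1, i, _, Alt.step i i' (m * l) a x hk ha hx, ?_⟩
      rw [map_one, one_mul, map_mul]
      simp only [mul_assoc]

theorem nf_L (i : ι) (l : L i) (x : Star φ κ) (hx : NF φ κ x) : NF φ κ (starL φ κ i l * x) := by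
  by_cases hl : ∃ k, κ i k = l
  · obtain ⟨k, rfl⟩ := hl
    rw [← star_glue]
    exact nf_C φ κ _ x hx
  push Not at hl
  rcases hx with ⟨a, rfl⟩ | ⟨a, i', h, hh, rfl⟩
  · exact Or.inr ⟨1, i, _, Alt.base i l a hl, by rw [map_one, one_mul]⟩
  · by_cases hi : i' = i ∧ ∃ k, φ i k = a
    · obtain ⟨rfl, k, rfl⟩ := hi
      rw [star_glue, ← mul_assoc, ← map_mul]
      exact alt_mul φ κ i' _ h hh
    · refine Or.inr ⟨1, i, _, Alt.step i i' l a h hl ?_ hh, ?_⟩
      · intro h1 k hk
        exact hi ⟨h1, k, hk⟩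
      · rw [map_one, one_mul, mul_assoc]

theorem nf_all (x : Star φ κ) : NF φ κ x :=
  star_ind φ κ (P := NF φ κ) (Or.inl ⟨1, by rw [map_one]⟩) (nf_C φ κ) (nf_L φ κ) x

end alt

theorem t_EMB : S_EMB := by
  intro A ι _ L K _ _ φ κ Q ι' _ D j f g h1 hj hf hg h2 h3 h4
  set X : Type := Σ i, Q ⧸ D i with hX
  let xx : ι → X := fun i => ⟨j i, ((1 : Q) : Q ⧸ D (j i))⟩
  have hxx : ∀ (i i' : ι) (p : Q), xx i = p • xx i' → i = i' ∧ p ∈ D (j i) := by
    intro i i' p h
    have e1 : p • xx i' = (⟨j i', ((p : Q) : Q ⧸ D (j i'))⟩ : X) := by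
      show (⟨j i', p • ((1 : Q) : Q ⧸ D (j i'))⟩ : X) = _
      congr 1
      show ((p * 1 : Q) : Q ⧸ D (j i')) = _
      rw [mul_one]
    rw [e1] at h
    have h5 : j i = j i' := congrArg Sigma.fst h
    have h6 := hj h5
    subst h6
    refine ⟨rfl, ?_⟩
    have h7 : ((1 : Q) : Q ⧸ D (j i)) = ((p : Q) : Q ⧸ D (j i)) := by
      have := (Sigma.mk.injEq _ _ _ _).mp h
      exact eq_of_heq this.2
    rw [QuotientGroup.eq] at h7
    simpa using h7
  have hfix : ∀ (i : ι) (p : Q), p ∈ D (j i) → p • xx i = xx i := by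
    intro i p hp
    show (⟨j i, p • ((1 : Q) : Q ⧸ D (j i))⟩ : X) = ⟨j i, ((1 : Q) : Q ⧸ D (j i))⟩
    congr 1
    show ((p * 1 : Q) : Q ⧸ D (j i)) = _
    rw [mul_one, eq_comm, QuotientGroup.eq]
    simpa using hp
  have hz : ∀ (i : ι) (p : Q), p ∈ D (j i) →
      zz D (j i) * SemidirectProduct.inr p * (zz D (j i))⁻¹ =
        (SemidirectProduct.inr p : FreeGroup X ⋊[permAut X Q] Q) := by
    intro i p hp
    have h5 : (permAut X Q p) (FreeGroup.of (xx i)) = FreeGroup.of (xx i) := by
      have := permAut_mk p [((xx i, true) : X × Bool)]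
      have h6 : (permAut X Q p) (FreeGroup.of (xx i)) = FreeGroup.of (p • xx i) := this
      rw [h6, hfix i p hp]
    have h7 : (SemidirectProduct.inr p : FreeGroup X ⋊[permAut X Q] Q) * zz D (j i) *
        (SemidirectProduct.inr p)⁻¹ = zz D (j i) := by
      show (SemidirectProduct.inr p : FreeGroup X ⋊[permAut X Q] Q) *
        SemidirectProduct.inl (FreeGroup.of (xx i)) * (SemidirectProduct.inr p)⁻¹ =
        SemidirectProduct.inl (FreeGroup.of (xx i))
      rw [← map_inv, ← SemidirectProduct.inl_aut, h5]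
    have h8 : (SemidirectProduct.inr p : FreeGroup X ⋊[permAut X Q] Q) * zz D (j i) =
        zz D (j i) * SemidirectProduct.inr p := by
      rw [mul_inv_eq_iff_eq_mul] at h7
      exact h7
    rw [← h8, mul_inv_cancel_right]
  let Θ : Star φ κ →* FreeGroup X ⋊[permAut X Q] Q :=
    starLift φ κ (SemidirectProduct.inr.comp f)
      (fun i => (MulAut.conj (zz D (j i))).toMonoidHom.comp (SemidirectProduct.inr.comp (g i))) (by
        intro i k
        show SemidirectProduct.inr (f (φ i k)) =
          zz D (j i) * SemidirectProduct.inr (g i (κ i k)) * (zz D (j i))⁻¹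
        rw [← h1, hz i _ (h2 i k)])
  have hC : ∀ a, Θ (starC φ κ a) = SemidirectProduct.inr (f a) := fun a =>
    starLift_C φ κ _ _ _ a
  have hL : ∀ i l, Θ (starL φ κ i l) =
      zz D (j i) * SemidirectProduct.inr (g i l) * (zz D (j i))⁻¹ := fun i l =>
    starLift_L φ κ _ _ _ i l
  have hrC : ∀ a, (Θ (starC φ κ a)).right = f a := fun a => by rw [hC]; rfl
  have hrL : ∀ i l, (Θ (starL φ κ i l)).right = g i l := fun i l => by
    rw [hL]
    simp [zz]
  have hrm : ∀ x y, (Θ (x * y)).right = (Θ x).right * (Θ y).right := fun x y => by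
    rw [map_mul, SemidirectProduct.mul_right]
  have hleft : ∀ x y, (Θ (x * y)).left = (Θ x).left * permAut X Q (Θ x).right (Θ y).left := by
    intro x y
    rw [map_mul, SemidirectProduct.mul_left]
  have hlC : ∀ a, (Θ (starC φ κ a)).left = 1 := fun a => by rw [hC]; rfl
  have hlL : ∀ i l, (Θ (starL φ κ i l)).left =
      FreeGroup.mk [(xx i, true), (g i l • xx i, false)] := by
    intro i l
    rw [hL]
    have h5 : (zz D (j i) * SemidirectProduct.inr (g i l) * (zz D (j i))⁻¹).left
        = FreeGroup.of (xx i) * permAut X Q (g i l) (FreeGroup.of (xx i))⁻¹ := by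
      simp [zz, xx, SemidirectProduct.mul_left]
      rfl
    have h6 : permAut X Q (g i l) (FreeGroup.of (xx i))⁻¹ =
        FreeGroup.mk [((g i l • xx i, false) : X × Bool)] := by
      have := permAut_mk (g i l) [((xx i, false) : X × Bool)]
      rw [FreeGroup.of, FreeGroup.inv_mk]
      exact this
    rw [h5, h6, FreeGroup.of, FreeGroup.mul_mk]
    rfl
  have hlb : ∀ (i : ι) (l : L i), (∀ k, κ i k ≠ l) → xx i ≠ g i l • xx i := by
    intro i l hl h
    obtain ⟨-, h5⟩ := hxx i i _ h
    obtain ⟨k, hk⟩ := h4 i l h5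
    exact hl k hk
  have halt : ∀ i x, Alt φ κ i x → ∃ W : List (X × Bool),
      FreeGroup.IsReduced ((xx i, true) :: W) ∧ (Θ x).left = FreeGroup.mk ((xx i, true) :: W) := by
    intro i x hx
    induction hx with
    | base i l a hl =>
      refine ⟨[(g i l • xx i, false)], ?_, ?_⟩
      · rw [FreeGroup.isReduced_cons_cons]
        exact ⟨fun h => absurd h (hlb i l hl), FreeGroup.IsReduced.singleton⟩
      · rw [hleft, hlC a, map_one, mul_one, hlL]
    | step i i' l a x hl ha hx ih =>
      obtain ⟨W, hW, hWx⟩ := ih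
      refine ⟨(g i l • xx i, false) ::
        ((xx i', true) :: W).map (fun q => ((g i l * f a) • q.1, q.2)), ?_, ?_⟩
      · rw [FreeGroup.isReduced_cons_cons]
        refine ⟨fun h => absurd h (hlb i l hl), ?_⟩
        rw [List.map_cons, FreeGroup.isReduced_cons_cons]
        refine ⟨fun h => ?_, ?_⟩
        · exfalso
          have h' : g i l • xx i = (g i l * f a) • xx i' := h
          rw [mul_smul] at h'
          obtain ⟨h5, h6⟩ := hxx i i' (f a) (MulAction.injective (g i l) h')
          obtain ⟨k, hk⟩ := h3 i a h6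
          exact ha h5.symm k hk
        · have := reduced_map (g i l * f a) _ hW
          rwa [List.map_cons] at this
      · have h5 : (Θ (starL φ κ i l * starC φ κ a)).left =
            FreeGroup.mk [(xx i, true), (g i l • xx i, false)] := by
          rw [hleft, hlC a, map_one, mul_one, hlL]
        rw [hleft, h5, hWx, hrm, hrL, hrC, permAut_mk, FreeGroup.mul_mk]
        rfl
  refine ⟨Θ, ?_, hC, hL⟩
  rw [injective_iff_map_eq_one]
  intro x hx
  rcases nf_all φ κ x with ⟨a, rfl⟩ | ⟨a, i, h, hh, rfl⟩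
  · have h5 := hrC a
    rw [hx] at h5
    have h6 : f a = f 1 := by rw [map_one]; exact h5.symm
    rw [hf h6, map_one]
  · exfalso
    obtain ⟨W, hW, hWx⟩ := halt i h hh
    have h5 := hleft (starC φ κ a) h
    rw [hx, hlC a, one_mul, hWx, permAut_mk] at h5
    have h6 : FreeGroup.IsReduced
        (((xx i, true) :: W).map fun q => ((Θ (starC φ κ a)).right • q.1, q.2)) :=
      reduced_map _ _ hW
    classical
    have h7 : (1 : FreeGroup X).toWord =
        (((xx i, true) :: W).map fun q => ((Θ (starC φ κ a)).right • q.1, q.2)) := by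
      have h8 : (FreeGroup.mk
          (((xx i, true) :: W).map fun q => ((Θ (starC φ κ a)).right • q.1, q.2))).toWord =
          (((xx i, true) :: W).map fun q => ((Θ (starC φ κ a)).right • q.1, q.2)) := by
        rw [FreeGroup.toWord_mk]
        exact h6.reduce_eq
      rw [← h8]
      exact congrArg _ h5
    simp at h7

end Pool.Agent.T2h30.PA.EMB
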