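import Pool.Agent.T2h30.PA.Stm2

/-! Task TRA of project PA (helper25). -/

set_option autoImplicit false

namespace Pool.Agent.T2h30.PA.TRA

open Pool.Agent.Y110.FJ Pool.Agent.Y462.SS Pool.Agent.T2h30.PA

variable {X : Type}

theorem secw_apply (v : List X) : ∀ (g : T X) (w : List X),
    g.1 (v ++ w) = g.1 v ++ (secw v g).1 w := by
  induction v with
  | nil =>
    intro g w
    rw [List.nil_append, nil_eq, List.nil_append]
    rfl
  | cons x v ih =>
    intro g w
    rw [List.cons_append, cons_eq, cons_eq, ih (sec g x) w, List.cons_append]
    rfl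

theorem t_TRA : S_TRA := by
  intro X g
  refine ⟨fun h => ?_, fun h => ?_⟩
  · have hinj : Function.Injective (fun t : T X => (t.1 : List X → List X)) := by
      intro a b hab
      apply Subtype.ext
      apply Equiv.ext
      exact fun w => congrFun hab w
    refine Set.Finite.of_finite_image (f := fun t : T X => (t.1 : List X → List X))
      (h.subset ?_) hinj.injOn
    rintro _ ⟨t, ⟨v, rfl⟩, rfl⟩
    exact ⟨v, fun w => secw_apply v g w⟩
  · obtain ⟨a, k, hak⟩ := h
    refine ⟨a, k, fun n => ?_⟩
    have he : {v : List X | v.length = n ∧ secw v g ≠ 1} =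
        {v : List X | v.length = n ∧ ∃ w, g.1 (v ++ w) ≠ g.1 v ++ w} := by
      ext v
      refine and_congr_right fun _ => ⟨fun h1 => ?_, fun h1 h2 => ?_⟩
      · by_contra h2
        push Not at h2
        apply h1
        apply Subtype.ext
        apply Equiv.ext
        intro w
        have h3 := h2 w
        rw [secw_apply] at h3
        exact List.append_cancel_left h3
      · obtain ⟨w, hw⟩ := h1
        apply hw
        rw [secw_apply, h2]
        rfl
    rw [he]
    exact hak n

end Pool.Agent.T2h30.PA.TRA
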